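import Mathlib

/-!
Sparse systems in which small sets of constraints share few variables.
-/

namespace Pool.Agent.TH661.UG

open Finset

variable {N m : ℕ} {J : Type} [Fintype J] [DecidableEq J]

/-- The slots of the constraints in `T` whose variable occurs in an earlier constraint of `T`. -/
def rep (c : Fin N → J → Fin m) (T : Finset (Fin N)) : Finset (Fin N × J) :=
  (T ×ˢ univ).filter fun p => ∃ e' ∈ T, e' < p.1 ∧ c e' p.2 = c p.1 p.2

/-- The systems whose repetitions in `R` are given by `f`. -/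
def GoodRep (m : ℕ) (R : Finset (Fin N × J)) (T : Finset (Fin N)) (f : R → T) :
    Finset (Fin N → J → Fin m) :=
  univ.filter fun c => ∀ p : R, (f p).1 < p.1.1 ∧ c (f p).1 p.1.2 = c p.1.1 p.1.2

theorem card_GoodRep (R : Finset (Fin N × J)) (T : Finset (Fin N)) (f : R → T) :
    (GoodRep m R T f).card * m ^ R.card ≤ m ^ (N * Fintype.card J) := by
  classical
  have h1 : (GoodRep m R T f).card ≤ Fintype.card (↥(Rᶜ) → Fin m) := by
    rw [← Finset.card_univ]
    refine Finset.card_le_card_of_injOn (fun c => fun p => c p.1.1 p.1.2)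
      (fun _ _ => Finset.mem_coe.2 (mem_univ _)) ?_
    intro c hc c' hc' hcc
    rw [Finset.mem_coe, GoodRep, mem_filter] at hc hc'
    have key : ∀ n : ℕ, ∀ e : Fin N, e.1 = n → ∀ j, c e j = c' e j := by
      intro n
      induction n using Nat.strong_induction_on with
      | _ n ih =>
        intro e he j
        by_cases hp : (e, j) ∈ R
        · obtain ⟨h2, h3⟩ := hc.2 ⟨(e, j), hp⟩
          obtain ⟨_, h5⟩ := hc'.2 ⟨(e, j), hp⟩
          rw [← h3, ← h5]
          exact ih _ (by rw [← he]; exact h2) _ rfl _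
        · exact congrFun hcc ⟨(e, j), mem_compl.2 hp⟩
    funext e j
    exact key _ e rfl j
  rw [Fintype.card_fun, Fintype.card_fin, Fintype.card_coe, card_compl, Fintype.card_prod,
    Fintype.card_fin] at h1
  have h2 : R.card ≤ N * Fintype.card J := by
    have := Finset.card_le_univ R
    rwa [Fintype.card_prod, Fintype.card_fin] at this
  calc (GoodRep m R T f).card * m ^ R.card ≤ m ^ (N * Fintype.card J - R.card) * m ^ R.card :=
        Nat.mul_le_mul_right _ h1
    _ = m ^ (N * Fintype.card J) := by rw [← pow_add, Nat.sub_add_cancel h2]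

theorem pow_self_le (s : ℕ) : s ^ s ≤ 3 ^ s * s.factorial := by
  have h1 : (s : ℝ) ^ s / s.factorial ≤ Real.exp s := Real.pow_div_factorial_le_exp s (by positivity) s
  have h2 : Real.exp s ≤ 3 ^ s := by
    have h3 : Real.exp s = Real.exp 1 ^ s := by rw [← Real.exp_nat_mul, mul_one]
    rw [h3]
    refine pow_le_pow_left₀ (Real.exp_pos 1).le ?_ s
    have := Real.exp_one_lt_d9
    linarith
  have h3 : (0 : ℝ) < s.factorial := by exact_mod_cast s.factorial_pos
  rw [div_le_iff₀ h3] at h1
  have h4 : (s : ℝ) ^ s ≤ 3 ^ s * s.factorial :=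
    h1.trans (mul_le_mul_of_nonneg_right h2 h3.le)
  exact_mod_cast h4

theorem choose_mul_le (N s : ℕ) : N.choose s * s ^ s ≤ (3 * N) ^ s := by
  calc N.choose s * s ^ s ≤ N.choose s * (3 ^ s * s.factorial) :=
        Nat.mul_le_mul_left _ (pow_self_le s)
    _ = 3 ^ s * (s.factorial * N.choose s) := by ring
    _ = 3 ^ s * N.descFactorial s := by rw [Nat.descFactorial_eq_factorial_mul_choose]
    _ ≤ 3 ^ s * N ^ s := Nat.mul_le_mul_left _ (Nat.descFactorial_le_pow N s)
    _ = (3 * N) ^ s := by rw [mul_pow]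

theorem term_le (k N m r s : ℕ) (hs : 1 ≤ s) (hsr : s ≤ r) (hrm : r ≤ m)
    (hB : (12 * 2 ^ k * N) ^ 4 * r ≤ m ^ 5) :
    N.choose s * (2 ^ (k * s) * s ^ (5 * s / 4 + 1)) * 4 ^ s ≤ m ^ (5 * s / 4 + 1) := by
  set u := 5 * s / 4 + 1 with hu
  have h4u : 5 * s ≤ 4 * u := by omega
  have hus : s ≤ u := by omega
  have h1 : (12 * 2 ^ k * N) ^ s * s ^ (u - s) ≤ m ^ u := by
    have h2 : ((12 * 2 ^ k * N) ^ s * s ^ (u - s)) ^ 4 ≤ (m ^ u) ^ 4 := by
      calc ((12 * 2 ^ k * N) ^ s * s ^ (u - s)) ^ 4
          = (12 * 2 ^ k * N) ^ (4 * s) * s ^ (4 * (u - s)) := by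
            rw [mul_pow, ← pow_mul, ← pow_mul, mul_comm s 4, mul_comm (u - s) 4]
        _ = ((12 * 2 ^ k * N) ^ 4 * s) ^ s * s ^ (4 * u - 5 * s) := by
            have e1 : 4 * (u - s) = s + (4 * u - 5 * s) := by omega
            rw [mul_pow _ s s, ← pow_mul _ 4 s, e1, pow_add]
            generalize (12 * 2 ^ k * N) ^ (4 * s) = A
            ring
        _ ≤ (m ^ 5) ^ s * m ^ (4 * u - 5 * s) := by
            refine Nat.mul_le_mul (Nat.pow_le_pow_left ?_ s) (Nat.pow_le_pow_left (by omega) _)
            exact (Nat.mul_le_mul_left _ hsr).trans hB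
        _ = (m ^ u) ^ 4 := by
            rw [← pow_mul, ← pow_add, ← pow_mul]
            congr 1
            omega
    exact le_of_not_gt fun h => absurd h2 (not_le.2 (Nat.pow_lt_pow_left h (by norm_num)))
  have h3 : s ^ u = s ^ s * s ^ (u - s) := by rw [← pow_add]; congr 1; omega
  calc N.choose s * (2 ^ (k * s) * s ^ u) * 4 ^ s
      = (N.choose s * s ^ s) * (2 ^ k * 4) ^ s * s ^ (u - s) := by
        rw [h3, mul_pow, ← pow_mul]
        ring
    _ ≤ (3 * N) ^ s * (2 ^ k * 4) ^ s * s ^ (u - s) :=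
        Nat.mul_le_mul_right _ (Nat.mul_le_mul_right _ (choose_mul_le N s))
    _ = (12 * 2 ^ k * N) ^ s * s ^ (u - s) := by
        rw [← mul_pow]
        congr 2
        ring
    _ ≤ m ^ u := h1

/-- Systems without many repetitions exist. -/
theorem exists_exp (N m r : ℕ) (hm : 0 < m) (hrm : r ≤ m)
    (hB : (12 * 2 ^ Fintype.card J * N) ^ 4 * r ≤ m ^ 5) :
    ∃ c : Fin N → J → Fin m, ∀ T : Finset (Fin N), T.card ≤ r → 4 * (rep c T).card ≤ 5 * T.card := by
  classical
  set k := Fintype.card J with hk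
  by_contra hcon
  push Not at hcon
  set u : ℕ → ℕ := fun s => 5 * s / 4 + 1 with hu
  have hcover : (univ : Finset (Fin N → J → Fin m)) ⊆
      (Icc 1 r).biUnion fun s => (powersetCard s (univ : Finset (Fin N))).biUnion fun T =>
        (powersetCard (u s) (T ×ˢ (univ : Finset J))).biUnion fun R =>
          (univ : Finset (R → T)).biUnion fun f => GoodRep m R T f := by
    intro c _
    obtain ⟨T, hT1, hT2⟩ := hcon c
    have hT0 : 1 ≤ T.card := by
      by_contra h0
      have h1 : T = ∅ := Finset.card_eq_zero.1 (by omega)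
      rw [h1] at hT2
      simp [rep] at hT2
    have hle : u T.card ≤ (rep c T).card := by
      simp only [hu]
      omega
    obtain ⟨R, hR1, hR2⟩ := Finset.exists_subset_card_eq hle
    have hf : ∀ p : R, ∃ e' : T, e'.1 < p.1.1 ∧ c e'.1 p.1.2 = c p.1.1 p.1.2 := by
      intro p
      have := hR1 p.2
      rw [rep, mem_filter] at this
      obtain ⟨_, e', he', h1, h2⟩ := this
      exact ⟨⟨e', he'⟩, h1, h2⟩
    choose f hf using hf
    rw [mem_biUnion]
    refine ⟨T.card, mem_Icc.2 ⟨hT0, hT1⟩, ?_⟩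
    rw [mem_biUnion]
    refine ⟨T, mem_powersetCard.2 ⟨subset_univ _, rfl⟩, ?_⟩
    rw [mem_biUnion]
    refine ⟨R, mem_powersetCard.2 ⟨hR1.trans (filter_subset _ _), hR2⟩, ?_⟩
    rw [mem_biUnion]
    exact ⟨f, mem_univ _, mem_filter.2 ⟨mem_univ _, hf⟩⟩
  have hcard := (Finset.card_le_card hcover).trans Finset.card_biUnion_le
  have hterm : ∀ s ∈ Icc 1 r, ((powersetCard s (univ : Finset (Fin N))).biUnion fun T =>
        (powersetCard (u s) (T ×ˢ (univ : Finset J))).biUnion fun R =>
          (univ : Finset (R → T)).biUnion fun f => GoodRep m R T f).card * 4 ^ s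
        ≤ m ^ (N * k) := by
    intro s hs
    rw [mem_Icc] at hs
    have h1 : ∀ T ∈ powersetCard s (univ : Finset (Fin N)),
        ((powersetCard (u s) (T ×ˢ (univ : Finset J))).biUnion fun R =>
          (univ : Finset (R → T)).biUnion fun f => GoodRep m R T f).card * m ^ (u s)
        ≤ (2 ^ (k * s) * s ^ (u s)) * m ^ (N * k) := by
      intro T hT
      have hTs : T.card = s := (mem_powersetCard.1 hT).2
      have h2 : ∀ R ∈ powersetCard (u s) (T ×ˢ (univ : Finset J)),
          ((univ : Finset (R → T)).biUnion fun f => GoodRep m R T f).card * m ^ (u s)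
          ≤ s ^ (u s) * m ^ (N * k) := by
        intro R hR
        have hRu : R.card = u s := (mem_powersetCard.1 hR).2
        calc ((univ : Finset (R → T)).biUnion fun f => GoodRep m R T f).card * m ^ (u s)
            ≤ (∑ f : R → T, (GoodRep m R T f).card) * m ^ (u s) :=
              Nat.mul_le_mul_right _ Finset.card_biUnion_le
          _ = ∑ f : R → T, (GoodRep m R T f).card * m ^ R.card := by
              rw [Finset.sum_mul, hRu]
          _ ≤ ∑ _f : R → T, m ^ (N * k) :=
              Finset.sum_le_sum fun f _ => card_GoodRep R T f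
          _ = s ^ (u s) * m ^ (N * k) := by
              rw [Finset.sum_const, Finset.card_univ, Fintype.card_fun, Fintype.card_coe,
                Fintype.card_coe, hTs, hRu, smul_eq_mul]
      calc _ ≤ (∑ R ∈ powersetCard (u s) (T ×ˢ (univ : Finset J)),
            ((univ : Finset (R → T)).biUnion fun f => GoodRep m R T f).card) * m ^ (u s) :=
            Nat.mul_le_mul_right _ Finset.card_biUnion_le
        _ = ∑ R ∈ powersetCard (u s) (T ×ˢ (univ : Finset J)),
            ((univ : Finset (R → T)).biUnion fun f => GoodRep m R T f).card * m ^ (u s) := by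
            rw [Finset.sum_mul]
        _ ≤ ∑ _R ∈ powersetCard (u s) (T ×ˢ (univ : Finset J)), s ^ (u s) * m ^ (N * k) :=
            Finset.sum_le_sum h2
        _ ≤ (2 ^ (k * s) * s ^ (u s)) * m ^ (N * k) := by
            rw [Finset.sum_const, smul_eq_mul, card_powersetCard, card_product, hTs,
              Finset.card_univ, ← hk, mul_assoc, mul_comm s k]
            exact Nat.mul_le_mul_right _ (Nat.choose_le_two_pow _ _)
    have h3 : ((powersetCard s (univ : Finset (Fin N))).biUnion fun T =>
        (powersetCard (u s) (T ×ˢ (univ : Finset J))).biUnion fun R =>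
          (univ : Finset (R → T)).biUnion fun f => GoodRep m R T f).card * m ^ (u s)
        ≤ N.choose s * (2 ^ (k * s) * s ^ (u s)) * m ^ (N * k) := by
      calc _ ≤ (∑ T ∈ powersetCard s (univ : Finset (Fin N)),
            ((powersetCard (u s) (T ×ˢ (univ : Finset J))).biUnion fun R =>
              (univ : Finset (R → T)).biUnion fun f => GoodRep m R T f).card) * m ^ (u s) :=
            Nat.mul_le_mul_right _ Finset.card_biUnion_le
        _ = ∑ T ∈ powersetCard s (univ : Finset (Fin N)),
            ((powersetCard (u s) (T ×ˢ (univ : Finset J))).biUnion fun R =>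
              (univ : Finset (R → T)).biUnion fun f => GoodRep m R T f).card * m ^ (u s) := by
            rw [Finset.sum_mul]
        _ ≤ ∑ _T ∈ powersetCard s (univ : Finset (Fin N)),
            (2 ^ (k * s) * s ^ (u s)) * m ^ (N * k) := Finset.sum_le_sum h1
        _ = N.choose s * (2 ^ (k * s) * s ^ (u s)) * m ^ (N * k) := by
            rw [Finset.sum_const, smul_eq_mul, card_powersetCard, Finset.card_univ,
              Fintype.card_fin, ← mul_assoc]
    have h4 := term_le k N m r s hs.1 hs.2 hrm hB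
    have hmu : 0 < m ^ (u s) := by positivity
    refine Nat.le_of_mul_le_mul_right ?_ hmu
    set X := ((powersetCard s (univ : Finset (Fin N))).biUnion fun T =>
        (powersetCard (u s) (T ×ˢ (univ : Finset J))).biUnion fun R =>
          (univ : Finset (R → T)).biUnion fun f => GoodRep m R T f).card with hX
    calc X * 4 ^ s * m ^ (u s) = (X * m ^ (u s)) * 4 ^ s := by ring
      _ ≤ (N.choose s * (2 ^ (k * s) * s ^ (u s)) * m ^ (N * k)) * 4 ^ s :=
          Nat.mul_le_mul_right _ h3
      _ = (N.choose s * (2 ^ (k * s) * s ^ (u s)) * 4 ^ s) * m ^ (N * k) := by ring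
      _ ≤ m ^ (u s) * m ^ (N * k) := Nat.mul_le_mul_right _ h4
      _ = m ^ (N * k) * m ^ (u s) := mul_comm _ _
  have hR : ((univ : Finset (Fin N → J → Fin m)).card : ℝ) ≤
      ∑ s ∈ Icc 1 r, (m : ℝ) ^ (N * k) * (1 / 4) ^ s := by
    calc ((univ : Finset (Fin N → J → Fin m)).card : ℝ) ≤ ∑ s ∈ Icc 1 r,
          (((powersetCard s (univ : Finset (Fin N))).biUnion fun T =>
        (powersetCard (u s) (T ×ˢ (univ : Finset J))).biUnion fun R =>
          (univ : Finset (R → T)).biUnion fun f => GoodRep m R T f).card : ℝ) := by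
          exact_mod_cast hcard
      _ ≤ _ := by
          refine Finset.sum_le_sum fun s hs => ?_
          have h5 := hterm s hs
          rw [one_div, inv_pow, ← div_eq_mul_inv, le_div_iff₀ (by positivity)]
          exact_mod_cast h5
  rw [Finset.card_univ, Fintype.card_fun, Fintype.card_fun, Fintype.card_fin, Fintype.card_fin,
    ← Finset.mul_sum, ← hk] at hR
  have hmpos : (0 : ℝ) < (m : ℝ) ^ (N * k) := by positivity
  have hsum : ∑ s ∈ Icc 1 r, ((1 : ℝ) / 4) ^ s ≤ 1 / 3 := by
    have h6 : ∀ r : ℕ, ∑ s ∈ Icc 1 r, ((1 : ℝ) / 4) ^ s = 1 / 3 * (1 - (1 / 4) ^ r) := by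
      intro r
      induction r with
      | zero => simp
      | succ r ih =>
        rw [Finset.sum_Icc_succ_top (by omega), ih]
        ring
    rw [h6]
    have : (0 : ℝ) < (1 / 4) ^ r := by positivity
    linarith
  have h7 : (m : ℝ) ^ (N * k) ≤ (m : ℝ) ^ (N * k) * (1 / 3) := by
    calc (m : ℝ) ^ (N * k) = (((m ^ k) ^ N : ℕ) : ℝ) := by
          push_cast
          rw [← pow_mul, mul_comm k N]
      _ ≤ _ := hR
      _ ≤ _ := mul_le_mul_of_nonneg_left hsum hmpos.le
  linarith

/-- The slots whose variable occurs in another constraint of `T`. -/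
def shared (c : Fin N → J → Fin m) (T : Finset (Fin N)) : Finset (Fin N × J) :=
  (T ×ˢ univ).filter fun p => ∃ e' ∈ T, e' ≠ p.1 ∧ c e' p.2 = c p.1 p.2

theorem card_shared (c : Fin N → J → Fin m) (T : Finset (Fin N)) :
    (shared c T).card ≤ 2 * (rep c T).card := by
  classical
  have h1 : (shared c T \ rep c T).card ≤ (rep c T).card := by
    have hex : ∀ p ∈ shared c T \ rep c T, ∃ e' ∈ T, p.1 < e' ∧ c e' p.2 = c p.1 p.2 := by
      intro p hp
      rw [mem_sdiff, shared, mem_filter, rep, mem_filter] at hp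
      obtain ⟨⟨h1, e', he', hne, hc⟩, h2⟩ := hp
      refine ⟨e', he', ?_, hc⟩
      by_contra h3
      exact h2 ⟨h1, e', he', lt_of_le_of_ne (not_lt.1 h3) hne, hc⟩
    have hex' : ∀ p : Fin N × J, ∃ e' : Fin N, p ∈ shared c T \ rep c T →
        e' ∈ T ∧ p.1 < e' ∧ c e' p.2 = c p.1 p.2 := by
      intro p
      by_cases hp : p ∈ shared c T \ rep c T
      · obtain ⟨e', h1, h2, h3⟩ := hex p hp
        exact ⟨e', fun _ => ⟨h1, h2, h3⟩⟩
      · exact ⟨p.1, fun h => absurd h hp⟩
    choose g hg using hex'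
    refine Finset.card_le_card_of_injOn (fun p => (g p, p.2)) ?_ ?_
    · intro p hp
      obtain ⟨h1, h2, h3⟩ := hg p hp
      rw [Finset.mem_coe, mem_sdiff, shared, mem_filter, mem_product] at hp
      rw [Finset.mem_coe, rep, mem_filter, mem_product]
      exact ⟨⟨h1, mem_univ _⟩, p.1, hp.1.1.1, h2, h3.symm⟩
    · intro p hp p' hp' hpp
      have h2 : g p = g p' := (Prod.mk.inj hpp).1
      have h3 : p.2 = p'.2 := (Prod.mk.inj hpp).2
      obtain ⟨_, _, h4⟩ := hg p hp
      obtain ⟨_, _, h5⟩ := hg p' hp'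
      rw [Finset.mem_coe, mem_sdiff, shared, mem_filter, mem_product, rep, mem_filter,
        mem_product] at hp hp'
      have h6 : c p.1 p.2 = c p'.1 p.2 := by
        rw [← h4, h2, h3, h5]
      rcases lt_trichotomy p.1 p'.1 with h | h | h
      · exact absurd ⟨hp'.1.1, p.1, hp.1.1.1, h, by rw [← h3]; exact h6⟩ hp'.2
      · exact Prod.ext h h3
      · exact absurd ⟨hp.1.1, p'.1, hp'.1.1.1, h, h6.symm⟩ hp.2
  have h2 := Finset.card_le_card_sdiff_add_card (s := shared c T) (t := rep c T)
  omega

end Pool.Agent.TH661.UG
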