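import Mathlib
import Pool.Agent.TH661.LRS.Sys

/-!
Pseudo-expectations for systems of constraints each of which is a coset of a linear subspace.
-/

namespace Pool.Agent.TH661.UG

open Finset Pool.Agent.W888.GX

variable {V : Type} [Fintype V] [DecidableEq V] {N : ℕ}

/-- The number of constraints used. -/
def cnt (a : Fin N → V → ZMod 2) : ℕ := (univ.filter fun e => a e ≠ 0).card

theorem cnt_add (a a' : Fin N → V → ZMod 2) : cnt (a + a') ≤ cnt a + cnt a' := by
  unfold cnt
  refine le_trans (Finset.card_le_card ?_) (Finset.card_union_le _ _)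
  intro e he
  rw [mem_filter] at he
  rw [mem_union, mem_filter, mem_filter]
  by_contra hcon
  push Not at hcon
  apply he.2
  rw [Pi.add_apply, hcon.1 (mem_univ _), hcon.2 (mem_univ _), add_zero]

theorem cnt_eq_zero {a : Fin N → V → ZMod 2} (h : cnt a = 0) : a = 0 := by
  funext e
  by_contra he
  have : 0 < (univ.filter fun e => a e ≠ 0).card :=
    Finset.card_pos.2 ⟨e, mem_filter.2 ⟨mem_univ _, he⟩⟩
  unfold cnt at h
  omega

/-- `y` is the sum of the checks `a e` of at most `r` constraints. -/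
def DerW (W : Fin N → AddSubgroup (V → ZMod 2)) (r : ℕ) (y : V → ZMod 2)
    (a : Fin N → V → ZMod 2) : Prop :=
  (∀ e, a e ∈ W e) ∧ cnt a ≤ r ∧ y = ∑ e, a e

/-- Sums of checks of at most `r` constraints have large weight. -/
def ExpW (W : Fin N → AddSubgroup (V → ZMod 2)) (r : ℕ) : Prop :=
  ∀ a : Fin N → V → ZMod 2, (∀ e, a e ∈ W e) → cnt a ≤ r → cnt a ≤ 2 * wt (∑ e, a e)

open Classical in
/-- the values on the characters -/
noncomputable def ellW (W : Fin N → AddSubgroup (V → ZMod 2)) (z : Fin N → V → ZMod 2) (r : ℕ)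
    (y : V → ZMod 2) : ℝ :=
  if h : ∃ a, DerW W r y a then sg (∑ e, h.choose e ⬝ᵥ z e) else 0

variable {W : Fin N → AddSubgroup (V → ZMod 2)} {z : Fin N → V → ZMod 2} {r : ℕ}

theorem derW_add {r1 r2 r3 : ℕ} {y y' : V → ZMod 2} {a a' : Fin N → V → ZMod 2}
    (h : DerW W r1 y a) (h' : DerW W r2 y' a') (hr : cnt (a + a') ≤ r3) :
    DerW W r3 (y + y') (a + a') := by
  refine ⟨fun e => (W e).add_mem (h.1 e) (h'.1 e), hr, ?_⟩
  rw [h.2.2, h'.2.2, ← Finset.sum_add_distrib]
  rfl

theorem derW_unique (hE : ExpW W (2 * r)) {y : V → ZMod 2} {a a' : Fin N → V → ZMod 2}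
    (h : DerW W r y a) (h' : DerW W r y a') : a = a' := by
  have hw : cnt (a + a') ≤ 2 * r := by
    have := cnt_add a a'
    have h1 := h.2.1
    have h2 := h'.2.1
    omega
  have h1 := derW_add h h' hw
  have h2 := hE (a + a') h1.1 hw
  rw [← h1.2.2, add_self_v] at h2
  have h3 : wt (0 : V → ZMod 2) = 0 := by
    unfold wt
    simp
  rw [h3] at h2
  have h4 := cnt_eq_zero (a := a + a') (by omega)
  funext e
  have h5 : a e + a' e = 0 := congrFun h4 e
  exact (add_eq_zero_v _ _).1 h5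

theorem ellW_eq (hE : ExpW W (2 * r)) {y : V → ZMod 2} {a : Fin N → V → ZMod 2}
    (h : DerW W r y a) : ellW W z r y = sg (∑ e, a e ⬝ᵥ z e) := by
  have hex : ∃ a, DerW W r y a := ⟨a, h⟩
  have h1 : hex.choose = a := derW_unique hE hex.choose_spec h
  unfold ellW
  rw [dif_pos hex, h1]

theorem ellW_ne {y : V → ZMod 2} (h : ellW W z r y ≠ 0) : ∃ a, DerW W r y a := by
  by_contra hcon
  apply h
  unfold ellW
  rw [dif_neg hcon]

theorem ellW_abs (y : V → ZMod 2) : |ellW W z r y| ≤ 1 := by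
  unfold ellW
  split_ifs with h
  · rw [← sq_le_one_iff_abs_le_one, sg_sq]
  · simp

theorem ellW_add (hE : ExpW W (2 * r)) {y y' : V → ZMod 2} {a a' : Fin N → V → ZMod 2}
    (h : DerW W r y a) (h' : DerW W r y' a') (hr : cnt (a + a') ≤ r) :
    ellW W z r (y + y') = ellW W z r y * ellW W z r y' := by
  rw [ellW_eq hE h, ellW_eq hE h', ellW_eq hE (derW_add h h' hr), ← sg_add,
    ← Finset.sum_add_distrib]
  congr 1
  refine Finset.sum_congr rfl fun e _ => ?_
  rw [Pi.add_apply, add_dotProduct]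

theorem zero_derW : DerW W r 0 0 := by
  refine ⟨fun e => (W e).zero_mem, ?_, ?_⟩
  · unfold cnt
    simp
  · simp

/-- The pseudo-expectation of the system. -/
theorem peW (hE : ExpW W (2 * r)) (D : ℕ) (hD : 8 * D ≤ r) :
    IsPseudoExpectation D (Lf (ellW W z r)) := by
  classical
  have h0 : ellW W z r 0 = 1 := by
    rw [ellW_eq hE zero_derW]
    simp [sg_zero]
  refine ⟨?_, ?_⟩
  · have h1 : (fun _ : V → ZMod 2 => (1 : ℝ)) = chi 0 := by
      funext x
      rw [chi_zero]
    rw [h1, Lf_chi, h0]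
  · intro f hf
    rw [Lf_sq _ D hf]
    refine psd_class (univ.filter fun y : V → ZMod 2 => wt y ≤ D)
      (fun y y' => ellW W z r (y + y')) ?_ ?_ ?_ ?_ (hat f)
    · intro y y'
      rw [add_comm]
    · intro y _
      rw [add_self_v, h0]
    · intro y _ y' _ h
      obtain ⟨a, ha⟩ := ellW_ne h
      rw [ellW_eq hE ha, sg_sq]
    · intro y hy y' hy' y'' hy'' h h'
      rw [mem_filter] at hy hy' hy''
      obtain ⟨a, ha⟩ := ellW_ne h
      obtain ⟨a', ha'⟩ := ellW_ne h'
      have h1 := hE a ha.1 (by have := ha.2.1; omega)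
      have h2 := hE a' ha'.1 (by have := ha'.2.1; omega)
      rw [← ha.2.2] at h1
      rw [← ha'.2.2] at h2
      have h3 := wt_add y y'
      have h4 := wt_add y' y''
      have h5 := cnt_add a a'
      have h6 : y + y'' = (y + y') + (y' + y'') := by
        rw [add_assoc, ← add_assoc y' y' y'', add_self_v, zero_add]
      rw [h6]
      exact ellW_add hE ha ha' (by omega)

/-- value on the checks -/
theorem ellW_row (hE : ExpW W (2 * r)) (hr : 1 ≤ r) {e : Fin N} {w : V → ZMod 2} (hw : w ∈ W e) :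
    ellW W z r w = sg (w ⬝ᵥ z e) := by
  classical
  have h1 : DerW W r w (Pi.single e w) := by
    refine ⟨fun e' => ?_, ?_, ?_⟩
    · by_cases h : e' = e
      · subst h
        rw [Pi.single_eq_same]
        exact hw
      · rw [Pi.single_eq_of_ne h]
        exact (W e').zero_mem
    · unfold cnt
      refine le_trans (Finset.card_le_card (t := {e}) ?_) (by simpa using hr)
      intro e' he'
      rw [mem_filter] at he'
      rw [mem_singleton]
      by_contra h
      exact he'.2 (Pi.single_eq_of_ne h _)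
    · rw [Finset.sum_pi_single' ]
      simp
  rw [ellW_eq hE h1, Finset.sum_eq_single e]
  · rw [Pi.single_eq_same]
  · intro e' _ h
    rw [Pi.single_eq_of_ne h, zero_dotProduct]
  · intro h
    exact absurd (mem_univ _) h

open Pool.Agent.TH661.LRS Pool.Agent.TH661.LRS.Sys in
/-- The density. -/
theorem exists_density {n : ℕ} (W : Fin N → AddSubgroup (Fin n → ZMod 2))
    (z : Fin N → Fin n → ZMod 2) (r : ℕ) (hr : 1 ≤ r) (hE : ExpW W (2 * r)) :
    ∃ D : (Fin n → Bool) → ℝ, (∀ y, |D y| ≤ 2 ^ n) ∧ ∑ y, D y = 2 ^ n ∧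
      (∀ t, 8 * t ≤ r → ∀ g : (Fin n → Bool) → ℝ, Dg t g → 0 ≤ ∑ y, D y * g y ^ 2) ∧
      ∀ e, ∀ w ∈ W e, ∑ y, D y * (if w ⬝ᵥ eZ n y = w ⬝ᵥ z e then 0 else 1) = 0 := by
  refine ⟨den (ellW W z r), fun y => abs_den _ (fun a => ellW_abs a) y, ?_, ?_, ?_⟩
  · have h1 := sum_den (ellW W z r) (fun _ => 1)
    simp only [mul_one] at h1
    rw [h1, (peW (z := z) hE 0 (by omega)).1, mul_one]
  · intro t ht g hg
    exact den_pos (peW hE t ht) g hg
  · intro e w hw
    have h1 := sum_den (ellW W z r) (fun x => if w ⬝ᵥ x = w ⬝ᵥ z e then 0 else 1)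
    rw [h1]
    have h3 : (fun x : Fin n → ZMod 2 => if w ⬝ᵥ x = w ⬝ᵥ z e then (0 : ℝ) else 1) =
        (1 / 2 : ℝ) • (Pool.Agent.W888.GX.chi 0 : (Fin n → ZMod 2) → ℝ) -
        (Pool.Agent.W888.GX.sg (w ⬝ᵥ z e) / 2) •
          (Pool.Agent.W888.GX.chi w : (Fin n → ZMod 2) → ℝ) := by
      funext x
      rw [Pi.sub_apply, Pi.smul_apply, Pi.smul_apply, chi_zero, smul_eq_mul, smul_eq_mul]
      unfold Pool.Agent.W888.GX.chi
      rcases z2 (w ⬝ᵥ x) with h | h <;> rcases z2 (w ⬝ᵥ z e) with h' | h'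
      · rw [h, h', if_pos rfl, sg_zero]; norm_num
      · rw [h, h', if_neg (by decide), sg_zero, sg_one]; norm_num
      · rw [h, h', if_neg (by decide), sg_zero, sg_one]; norm_num
      · rw [h, h', if_pos rfl, sg_one]; norm_num
    rw [h3, map_sub, map_smul, map_smul, Lf_chi, Lf_chi]
    have h4 : ellW W z r 0 = 1 := by
      rw [ellW_eq hE zero_derW]
      simp [sg_zero]
    rw [h4, ellW_row hE hr hw, smul_eq_mul, smul_eq_mul]
    have h6 := Pool.Agent.W888.GX.sg_sq (w ⬝ᵥ z e)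
    have h7 : Pool.Agent.W888.GX.sg (w ⬝ᵥ z e) / 2 * Pool.Agent.W888.GX.sg (w ⬝ᵥ z e) = 1 / 2 := by
      rw [div_mul_eq_mul_div, ← sq, h6]
    rw [h7]
    ring

end Pool.Agent.TH661.UG
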