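import Mathlib
import Pool.Agent.TH661.UG.Exn
import Pool.Agent.TH661.UG.PE

/-!
Reed-Solomon codes of dimension two over the field with `2 ^ a` elements, in bits.
-/

namespace Pool.Agent.TH661.UG

open Finset

/-- The alphabet. -/
abbrev Al (a : ℕ) : Type := Fin a → ZMod 2

/-- A linear code of dimension two over the alphabet `Al a`, with the coordinates `J`, any two of
which determine the word. -/
structure LineCode (a : ℕ) (J : Type) where
  line : Al a × Al a → J → Al a
  add : ∀ p p' j, line (p + p') j = line p j + line p' j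
  bij : ∀ j j', j ≠ j' → Function.Bijective fun p => (line p j, line p j')

theorem line_bij {F : Type} [Field F] {t t' : F} (h : t ≠ t') :
    Function.Bijective fun p : F × F => (p.1 + p.2 * t, p.1 + p.2 * t') := by
  have h0 : t - t' ≠ 0 := sub_ne_zero.2 h
  constructor
  · intro p p' hp
    have h1 : p.1 + p.2 * t = p'.1 + p'.2 * t := (Prod.mk.inj hp).1
    have h2 : p.1 + p.2 * t' = p'.1 + p'.2 * t' := (Prod.mk.inj hp).2
    have h3 : (p.2 - p'.2) * (t - t') = 0 := by linear_combination h1 - h2
    have h4 : p.2 = p'.2 := by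
      rcases mul_eq_zero.1 h3 with h | h
      · exact sub_eq_zero.1 h
      · exact absurd h h0
    refine Prod.ext ?_ h4
    rw [h4] at h1
    exact add_right_cancel h1
  · intro q
    refine ⟨(q.1 - (q.1 - q.2) / (t - t') * t, (q.1 - q.2) / (t - t')), ?_⟩
    refine Prod.ext ?_ ?_
    · show q.1 - (q.1 - q.2) / (t - t') * t + (q.1 - q.2) / (t - t') * t = q.1
      ring
    · show q.1 - (q.1 - q.2) / (t - t') * t + (q.1 - q.2) / (t - t') * t' = q.2
      field_simp
      ring

theorem exists_code (a : ℕ) (ha : 1 ≤ a) : Nonempty (LineCode a (Fin (2 ^ a))) := by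
  classical
  have : Fact (Nat.Prime 2) := ⟨Nat.prime_two⟩
  have hcard : Nat.card (GaloisField 2 a) = 2 ^ a := GaloisField.card 2 a (by omega)
  have : Finite (GaloisField 2 a) := Nat.finite_of_card_ne_zero (by rw [hcard]; positivity)
  let _ : Fintype (GaloisField 2 a) := Fintype.ofFinite _
  have hfin : Module.finrank (ZMod 2) (GaloisField 2 a) = a := GaloisField.finrank 2 (by omega)
  let φ : GaloisField 2 a ≃ₗ[ZMod 2] Al a :=
    (Module.finBasisOfFinrankEq (ZMod 2) (GaloisField 2 a) hfin).equivFun
  have hcard' : Fintype.card (GaloisField 2 a) = 2 ^ a := by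
    rw [← hcard, Nat.card_eq_fintype_card]
  let τ : Fin (2 ^ a) ≃ GaloisField 2 a := (Fintype.equivFinOfCardEq hcard').symm
  refine ⟨{ line := fun p j => φ (φ.symm p.1 + φ.symm p.2 * τ j)
            add := ?_
            bij := ?_ }⟩
  · intro p p' j
    rw [← map_add]
    congr 1
    rw [Prod.fst_add, Prod.snd_add, map_add, map_add]
    ring
  · intro j j' hjj
    have hτ : τ j ≠ τ j' := fun h => hjj (τ.injective h)
    have h1 := line_bij hτ
    have h2 : (fun p : Al a × Al a => (φ (φ.symm p.1 + φ.symm p.2 * τ j),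
        φ (φ.symm p.1 + φ.symm p.2 * τ j'))) =
        (Prod.map φ φ) ∘ (fun p : GaloisField 2 a × GaloisField 2 a =>
          (p.1 + p.2 * τ j, p.1 + p.2 * τ j')) ∘ (Prod.map φ.symm φ.symm) := rfl
    rw [h2]
    exact (Function.Bijective.prodMap φ.bijective φ.bijective).comp
      (h1.comp (Function.Bijective.prodMap φ.symm.bijective φ.symm.bijective))

section checks

variable {a m N nn : ℕ} {J : Type} [Fintype J] [DecidableEq J]

/-- The position of a bit. -/
abbrev Bt (a m : ℕ) (J : Type) : Type := (J × Fin m) × Fin a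

/-- The bits of the constraint `e` at the slot `j`, of a vector `w`. -/
def loc (ix : Bt a m J ≃ Fin nn) (c : Fin N → J → Fin m) (e : Fin N) (w : Fin nn → ZMod 2)
    (j : J) : Al a := fun l => w (ix ((j, c e j), l))

/-- The parity checks of the constraint `e`. -/
def chk (L : LineCode a J) (ix : Bt a m J ≃ Fin nn) (c : Fin N → J → Fin m) (e : Fin N) :
    AddSubgroup (Fin nn → ZMod 2) where
  carrier := {w | (∀ v, w v ≠ 0 → ∃ j l, v = ix ((j, c e j), l)) ∧
    ∀ p, ∑ j, loc ix c e w j ⬝ᵥ L.line p j = 0}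
  zero_mem' := by
    refine ⟨fun v h => absurd rfl h, fun p => ?_⟩
    refine Finset.sum_eq_zero fun j _ => ?_
    have : loc ix c e (0 : Fin nn → ZMod 2) j = 0 := rfl
    rw [this, zero_dotProduct]
  add_mem' := by
    rintro w w' ⟨h1, h2⟩ ⟨h3, h4⟩
    refine ⟨fun v hv => ?_, fun p => ?_⟩
    · by_cases h : w v = 0
      · apply h3
        intro h'
        exact hv (by rw [Pi.add_apply, h, h', add_zero])
      · exact h1 v h
    · have h5 : ∀ j, loc ix c e (w + w') j ⬝ᵥ L.line p j
          = loc ix c e w j ⬝ᵥ L.line p j + loc ix c e w' j ⬝ᵥ L.line p j := by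
        intro j
        rw [← add_dotProduct]
        rfl
      simp only [h5, Finset.sum_add_distrib, h2, h4, add_zero]
  neg_mem' := by
    rintro w ⟨h1, h2⟩
    have h3 : -w = w := by
      funext v
      exact ZMod.neg_eq_self_mod_two (w v)
    show (-w) ∈ {w | _ ∧ _}
    rw [h3]
    exact ⟨h1, h2⟩

/-- The slots used by the check `w`. -/
def sl (ix : Bt a m J ≃ Fin nn) (c : Fin N → J → Fin m) (e : Fin N) (w : Fin nn → ZMod 2) :
    Finset J := univ.filter fun j => loc ix c e w j ≠ 0

theorem three_le_sl (L : LineCode a J) (ix : Bt a m J ≃ Fin nn) (c : Fin N → J → Fin m)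
    (e : Fin N) (w : Fin nn → ZMod 2) (hw : w ∈ chk L ix c e) (h0 : w ≠ 0)
    (hJ : 3 ≤ Fintype.card J) : 3 ≤ (sl ix c e w).card := by
  classical
  by_contra hcon
  -- two slots which contain the support
  obtain ⟨T, hT1, hT2⟩ : ∃ T : Finset J, sl ix c e w ⊆ T ∧ T.card = 2 := by
    obtain ⟨T, h1, _, h2⟩ := Finset.exists_subsuperset_card_eq (s := sl ix c e w)
      (t := (univ : Finset J)) (n := 2) (subset_univ _) (by omega)
      (by rw [Finset.card_univ]; omega)
    exact ⟨T, h1, h2⟩
  obtain ⟨j1, j2, hne, rfl⟩ := Finset.card_eq_two.1 hT2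
  have hz : ∀ j, j ≠ j1 → j ≠ j2 → loc ix c e w j = 0 := by
    intro j h1 h2
    by_contra h
    have : j ∈ ({j1, j2} : Finset J) := hT1 (mem_filter.2 ⟨mem_univ _, h⟩)
    rw [mem_insert, mem_singleton] at this
    rcases this with h' | h'
    · exact h1 h'
    · exact h2 h'
  have hsum : ∀ u v : Al a, loc ix c e w j1 ⬝ᵥ u + loc ix c e w j2 ⬝ᵥ v = 0 := by
    intro u v
    obtain ⟨p, hp⟩ := (L.bij j1 j2 hne).2 (u, v)
    have h1 := hw.2 p
    have h2 : ∑ j, loc ix c e w j ⬝ᵥ L.line p j
        = ∑ j ∈ ({j1, j2} : Finset J), loc ix c e w j ⬝ᵥ L.line p j := by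
      symm
      refine Finset.sum_subset (subset_univ _) fun j _ hj => ?_
      rw [mem_insert, mem_singleton] at hj
      push Not at hj
      rw [hz j hj.1 hj.2, zero_dotProduct]
    rw [h2, Finset.sum_pair hne] at h1
    have h3 : L.line p j1 = u := (Prod.mk.inj hp).1
    have h4 : L.line p j2 = v := (Prod.mk.inj hp).2
    rw [h3, h4] at h1
    exact h1
  have hz1 : loc ix c e w j1 = 0 := by
    funext l
    have := hsum (Pi.single l 1) 0
    rw [dotProduct_zero, add_zero, dotProduct_single, mul_one] at this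
    exact this
  have hz2 : loc ix c e w j2 = 0 := by
    funext l
    have := hsum 0 (Pi.single l 1)
    rw [dotProduct_zero, zero_add, dotProduct_single, mul_one] at this
    exact this
  apply h0
  funext v
  by_contra hv
  obtain ⟨j, l, rfl⟩ := hw.1 v hv
  have hj : loc ix c e w j = 0 := by
    by_cases h1 : j = j1
    · rw [h1]; exact hz1
    · by_cases h2 : j = j2
      · rw [h2]; exact hz2
      · exact hz j h1 h2
  exact hv (congrFun hj l)

open Pool.Agent.W888.GX in
/-- Systems without many repetitions are expanding. -/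
theorem expW_of (L : LineCode a J) (ix : Bt a m J ≃ Fin nn) (c : Fin N → J → Fin m)
    (hJ : 3 ≤ Fintype.card J) (r : ℕ)
    (hc : ∀ T : Finset (Fin N), T.card ≤ r → 4 * (rep c T).card ≤ 5 * T.card) :
    ExpW (chk L ix c) r := by
  classical
  intro w hw hr
  set T := univ.filter fun e => w e ≠ 0 with hT
  have hTc : T.card = cnt w := rfl
  have h1 := hc T (by rw [hTc]; exact hr)
  have h2 := card_shared c T
  -- the used slots
  set A : Finset (Fin N × J) := (T ×ˢ univ).filter fun p => loc ix c p.1 (w p.1) p.2 ≠ 0 with hA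
  have hA3 : 3 * T.card ≤ A.card := by
    have h3 : A.card = ∑ e ∈ T, (sl ix c e (w e)).card := by
      rw [hA, Finset.card_filter, Finset.sum_product]
      refine Finset.sum_congr rfl fun e _ => ?_
      rw [sl, Finset.card_filter]
    rw [h3, mul_comm, ← smul_eq_mul, ← Finset.sum_const]
    refine Finset.sum_le_sum fun e he => ?_
    exact three_le_sl L ix c e (w e) (hw e) (mem_filter.1 he).2 hJ
  have h4 : A.card ≤ (A \ shared c T).card + (shared c T).card :=
    Finset.card_le_card_sdiff_add_card
  have hAT : ∀ p ∈ A \ shared c T, p.1 ∈ T := fun p hp =>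
    (mem_product.1 (mem_filter.1 (mem_sdiff.1 hp).1).1).1
  have hex : ∀ p ∈ A \ shared c T, ∃ l, (w p.1) (ix ((p.2, c p.1 p.2), l)) ≠ 0 := by
    intro p hp
    by_contra hcon
    push Not at hcon
    exact (mem_filter.1 (mem_sdiff.1 hp).1).2 (funext hcon)
  have h5 : (A \ shared c T).card ≤ wt (∑ e, w e) := by
    rcases (A \ shared c T).eq_empty_or_nonempty with hemp | ⟨p0, hp0⟩
    · rw [hemp, card_empty]
      exact Nat.zero_le _
    obtain ⟨l0, _⟩ := hex p0 hp0
    have hex' : ∀ p : Fin N × J, ∃ v : Fin nn, p ∈ A \ shared c T → ∃ l,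
        v = ix ((p.2, c p.1 p.2), l) ∧ (w p.1) v ≠ 0 := by
      intro p
      by_cases hp : p ∈ A \ shared c T
      · obtain ⟨l, hl⟩ := hex p hp
        exact ⟨_, fun _ => ⟨l, rfl, hl⟩⟩
      · exact ⟨ix ((p.2, c p.1 p.2), l0), fun h => absurd h hp⟩
    choose g hg using hex'
    unfold wt
    refine Finset.card_le_card_of_injOn g ?_ ?_
    · intro p hp
      obtain ⟨l, h6, h7⟩ := hg p hp
      have hpS : p ∉ shared c T := (mem_sdiff.1 (Finset.mem_coe.1 hp)).2
      have hpT := hAT p hp
      rw [Finset.mem_coe, mem_filter]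
      refine ⟨mem_univ _, ?_⟩
      rw [Finset.sum_apply, Finset.sum_eq_single p.1]
      · exact h7
      · intro e' _ he'
        by_contra h8
        apply hpS
        refine mem_filter.2 ⟨mem_product.2 ⟨hpT, mem_univ _⟩, e',
          mem_filter.2 ⟨mem_univ _, ?_⟩, he', ?_⟩
        · intro h9
          rw [h9] at h8
          exact h8 rfl
        · obtain ⟨j', l', h9⟩ := (hw e').1 _ h8
          rw [h6] at h9
          have h10 := ix.injective h9
          have h11 : (p.2, c p.1 p.2) = (j', c e' j') := (Prod.mk.inj h10).1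
          have h12 : p.2 = j' := (Prod.mk.inj h11).1
          rw [h12]
          rw [h12] at h11
          exact (Prod.mk.inj h11).2.symm
      · intro h
        exact absurd (mem_univ _) h
    · intro p hp p' hp' hpp
      obtain ⟨l, h6, h7⟩ := hg p hp
      obtain ⟨l', h8, h9⟩ := hg p' hp'
      have hpS : p ∉ shared c T := (mem_sdiff.1 (Finset.mem_coe.1 hp)).2
      have hpT := hAT p hp
      have hpT' := hAT p' hp'
      rw [h6, h8] at hpp
      have h10 := ix.injective hpp
      have h11 : (p.2, c p.1 p.2) = (p'.2, c p'.1 p'.2) := (Prod.mk.inj h10).1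
      have h12 : p.2 = p'.2 := (Prod.mk.inj h11).1
      have h13 : c p.1 p.2 = c p'.1 p'.2 := (Prod.mk.inj h11).2
      by_contra hne
      apply hpS
      refine mem_filter.2 ⟨mem_product.2 ⟨hpT, mem_univ _⟩, p'.1, hpT', ?_, ?_⟩
      · intro h14
        exact hne (Prod.ext h14.symm h12)
      · rw [h13, h12]
  rw [← hTc]
  omega

end checks

end Pool.Agent.TH661.UG
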