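import Mathlib
import Pool.Agent.TH661.UG.Code

/-!
Shifts such that no assignment agrees much with the code words.
-/

namespace Pool.Agent.TH661.UG

open Finset

variable {a m N : ℕ} {J : Type} [Fintype J] [DecidableEq J]

/-- The number of slots at which the labels agree. -/
def agr (L : LineCode a J) (c : Fin N → J → Fin m) (b : Fin N → J → Al a) (y : J × Fin m → Al a)
    (P : Fin N → Al a × Al a) (e : Fin N) : ℕ :=
  (univ.filter fun j => y (j, c e j) + b e j = L.line (P e) j).card

theorem card_Al : Fintype.card (Al a) = 2 ^ a := by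
  rw [Fintype.card_fun, ZMod.card, Fintype.card_fin]

theorem pow_succ_le (q : ℕ) : (q + 1) ^ q ≤ 3 * q ^ q := by
  rcases Nat.eq_zero_or_pos q with rfl | hq
  · norm_num
  · have hqR : (0 : ℝ) < q := by exact_mod_cast hq
    have h1 : (1 + 1 / (q : ℝ)) ^ q ≤ 3 := by
      have h2 : 1 + 1 / (q : ℝ) ≤ Real.exp (1 / q) := by
        have := Real.add_one_le_exp (1 / (q : ℝ))
        linarith
      calc (1 + 1 / (q : ℝ)) ^ q ≤ Real.exp (1 / q) ^ q := pow_le_pow_left₀ (by positivity) h2 q
        _ = Real.exp 1 := by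
            rw [← Real.exp_nat_mul]
            congr 1
            field_simp
        _ ≤ 3 := by
            have := Real.exp_one_lt_d9
            linarith
    have h3 : ((q : ℝ) + 1) ^ q = (q : ℝ) ^ q * (1 + 1 / (q : ℝ)) ^ q := by
      rw [← mul_pow]
      congr 1
      field_simp
    have h4 : ((q : ℝ) + 1) ^ q ≤ 3 * (q : ℝ) ^ q := by
      rw [h3, mul_comm]
      exact mul_le_mul_of_nonneg_right h1 (by positivity)
    exact_mod_cast h4

theorem sum_two_pow (L : LineCode a J) (c : Fin N → J → Fin m) (y : J × Fin m → Al a)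
    (P : Fin N → Al a × Al a) :
    ∑ b : Fin N → J → Al a, 2 ^ (∑ e, agr L c b y P e)
      = ((2 ^ a + 1) ^ Fintype.card J) ^ N := by
  classical
  have h1 : ∀ b : Fin N → J → Al a, 2 ^ (∑ e, agr L c b y P e)
      = ∏ e, ∏ j, if b e j = y (j, c e j) + L.line (P e) j then 2 else 1 := by
    intro b
    rw [← Finset.prod_pow_eq_pow_sum]
    refine Finset.prod_congr rfl fun e _ => ?_
    unfold agr
    rw [Finset.card_filter, ← Finset.prod_pow_eq_pow_sum]
    refine Finset.prod_congr rfl fun j _ => ?_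
    have h2 : y (j, c e j) + b e j = L.line (P e) j ↔ b e j = y (j, c e j) + L.line (P e) j := by
      constructor
      · intro h
        rw [← h, ← add_assoc, Pool.Agent.W888.GX.add_self_v, zero_add]
      · intro h
        rw [h, ← add_assoc, Pool.Agent.W888.GX.add_self_v, zero_add]
    by_cases h : y (j, c e j) + b e j = L.line (P e) j
    · rw [if_pos h, if_pos (h2.1 h), pow_one]
    · rw [if_neg h, if_neg fun h' => h (h2.2 h'), pow_zero]
  simp only [h1]
  have h3 := Finset.prod_univ_sum (κ := fun _ : Fin N => J → Al a) (fun _ : Fin N => univ)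
    (fun (e : Fin N) (be : J → Al a) =>
      ∏ j, if be j = y (j, c e j) + L.line (P e) j then 2 else 1)
  rw [Fintype.piFinset_univ] at h3
  rw [← h3]
  have h4 : ∀ e : Fin N, ∑ be : J → Al a,
      ∏ j, (if be j = y (j, c e j) + L.line (P e) j then 2 else 1)
      = (2 ^ a + 1) ^ Fintype.card J := by
    intro e
    have h5 := Finset.prod_univ_sum (κ := fun _ : J => Al a) (fun _ : J => univ)
      (fun (j : J) (v : Al a) => if v = y (j, c e j) + L.line (P e) j then 2 else 1)
    rw [Fintype.piFinset_univ] at h5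
    rw [← h5]
    have h6 : ∀ j : J, ∑ v : Al a, (if v = y (j, c e j) + L.line (P e) j then 2 else 1)
        = 2 ^ a + 1 := by
      intro j
      have h7 : ∀ v : Al a, (if v = y (j, c e j) + L.line (P e) j then 2 else 1)
          = 1 + if v = y (j, c e j) + L.line (P e) j then 1 else 0 := by
        intro v
        split_ifs <;> rfl
      simp only [h7, Finset.sum_add_distrib, Finset.sum_ite_eq', mem_univ, if_true]
      rw [Finset.sum_const, Finset.card_univ, card_Al, smul_eq_mul, mul_one]
    simp only [h6, Finset.prod_const, Finset.card_univ]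
  simp only [h4, Finset.prod_const, Finset.card_univ, Fintype.card_fin]

/-- Good shifts exist. -/
theorem exists_shift (L : LineCode a J) (hJ : Fintype.card J = 2 ^ a) (ha : 1 ≤ a) (hm : 1 ≤ m)
    (hN : N = a * (2 ^ a * m)) (c : Fin N → J → Fin m) :
    ∃ b : Fin N → J → Al a, ∀ (y : J × Fin m → Al a) (P : Fin N → Al a × Al a),
      ∑ e, agr L c b y P e ≤ (2 * a + 3) * N := by
  classical
  by_contra hcon
  push Not at hcon
  have hN1 : N ≠ 0 := by
    rw [hN]
    positivity
  set q := 2 ^ a with hq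
  have hcover : (univ : Finset (Fin N → J → Al a)) ⊆
      (univ : Finset ((J × Fin m → Al a) × (Fin N → Al a × Al a))).biUnion fun yP =>
        univ.filter fun b => (2 * a + 3) * N < ∑ e, agr L c b yP.1 yP.2 e := by
    intro b _
    obtain ⟨y, P, h⟩ := hcon b
    rw [mem_biUnion]
    exact ⟨(y, P), mem_univ _, mem_filter.2 ⟨mem_univ _, h⟩⟩
  have h1 := (Finset.card_le_card hcover).trans Finset.card_biUnion_le
  have h2 : ∀ yP : (J × Fin m → Al a) × (Fin N → Al a × Al a),
      (univ.filter fun b => (2 * a + 3) * N < ∑ e, agr L c b yP.1 yP.2 e).card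
        * 2 ^ ((2 * a + 3) * N) ≤ ((q + 1) ^ q) ^ N := by
    intro yP
    have h0 := sum_two_pow L c yP.1 yP.2
    rw [hJ, ← hq] at h0
    rw [← h0, ← smul_eq_mul, ← Finset.sum_const]
    refine (Finset.sum_le_sum fun b hb => ?_).trans
      (Finset.sum_le_sum_of_subset (Finset.subset_univ _))
    exact Nat.pow_le_pow_right (by norm_num) (mem_filter.1 hb).2.le
  have h3 : (q ^ q) ^ N * 2 ^ ((2 * a + 3) * N) ≤
      (q ^ (q * m) * (q * q) ^ N) * ((q + 1) ^ q) ^ N := by
    have hc1 : (univ : Finset (Fin N → J → Al a)).card = (q ^ q) ^ N := by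
      rw [Finset.card_univ, Fintype.card_fun, Fintype.card_fun, card_Al, hJ, Fintype.card_fin]
    have hc2 : (univ : Finset ((J × Fin m → Al a) × (Fin N → Al a × Al a))).card
        = q ^ (q * m) * (q * q) ^ N := by
      have e1 : Fintype.card (J × Fin m → Al a) = q ^ (q * m) := by
        rw [Fintype.card_fun, Fintype.card_prod, card_Al, hJ, Fintype.card_fin]
      have e2 : Fintype.card (Fin N → Al a × Al a) = (q * q) ^ N := by
        rw [Fintype.card_fun, Fintype.card_prod, card_Al, Fintype.card_fin]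
      rw [Finset.card_univ, Fintype.card_prod, e1, e2]
    rw [hc1] at h1
    calc (q ^ q) ^ N * 2 ^ ((2 * a + 3) * N) ≤ (∑ yP : (J × Fin m → Al a) × (Fin N → Al a × Al a),
          (univ.filter fun b => (2 * a + 3) * N < ∑ e, agr L c b yP.1 yP.2 e).card)
          * 2 ^ ((2 * a + 3) * N) := Nat.mul_le_mul_right _ h1
      _ = ∑ yP : (J × Fin m → Al a) × (Fin N → Al a × Al a),
          (univ.filter fun b => (2 * a + 3) * N < ∑ e, agr L c b yP.1 yP.2 e).card
          * 2 ^ ((2 * a + 3) * N) := by rw [Finset.sum_mul]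
      _ ≤ ∑ _yP : (J × Fin m → Al a) × (Fin N → Al a × Al a), ((q + 1) ^ q) ^ N :=
          Finset.sum_le_sum fun yP _ => h2 yP
      _ = _ := by rw [Finset.sum_const, hc2, smul_eq_mul]
  have hqpos : 0 < q := by positivity
  have h4 : q ^ (q * m) = 2 ^ N := by
    rw [hq, ← pow_mul, ← hq, hN]
  have h5 : 2 ^ ((2 * a + 3) * N) = (q * q) ^ N * 8 ^ N := by
    rw [← mul_pow, pow_mul]
    congr 1
    rw [hq]
    ring
  have h6 : ((q + 1) ^ q) ^ N ≤ 3 ^ N * (q ^ q) ^ N := by
    rw [← mul_pow]
    exact Nat.pow_le_pow_left (pow_succ_le q) N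
  have h7 : (q ^ q) ^ N * ((q * q) ^ N * 8 ^ N) ≤ (2 ^ N * (q * q) ^ N) * (3 ^ N * (q ^ q) ^ N) := by
    rw [← h5, ← h4]
    exact h3.trans (Nat.mul_le_mul_left _ h6)
  have h8 : (q ^ q) ^ N * (q * q) ^ N * 8 ^ N ≤ (q ^ q) ^ N * (q * q) ^ N * 6 ^ N := by
    calc (q ^ q) ^ N * (q * q) ^ N * 8 ^ N = (q ^ q) ^ N * ((q * q) ^ N * 8 ^ N) := by ring
      _ ≤ _ := h7
      _ = (q ^ q) ^ N * (q * q) ^ N * (2 ^ N * 3 ^ N) := by ring
      _ = _ := by
          congr 1
          rw [← mul_pow]
          norm_num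
  have h9 : (8 : ℕ) ^ N ≤ 6 ^ N := Nat.le_of_mul_le_mul_left h8 (by positivity)
  exact absurd h9 (not_le.2 (Nat.pow_lt_pow_left (by norm_num) hN1))

end Pool.Agent.TH661.UG
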