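import Mathlib
import Pool.Agent.TH661.UG.Sound
import Pool.Agent.TH661.LRS.CL1

/-!
Constraint systems over Reed-Solomon codes: no assignment agrees much with the code words, but there
is a density on the cube for which all the constraints hold.
-/

namespace Pool.Agent.TH661.UG

open Finset Pool.Agent.TH661.LRS Pool.Agent.TH661.LRS.Sys

variable {a m N nn : ℕ} {J : Type} [Fintype J] [DecidableEq J]

/-- The local word of the assignment `y` at the constraint `e`. -/
def word (ix : Bt a m J ≃ Fin nn) (c : Fin N → J → Fin m) (e : Fin N) (y : Fin nn → Bool) :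
    J → Al a := fun j l => toZ (y (ix ((j, c e j), l)))

theorem word_eq (ix : Bt a m J ≃ Fin nn) (c : Fin N → J → Fin m) (e : Fin N) (y : Fin nn → Bool)
    (j : J) : word ix c e y j = loc ix c e (eZ nn y) j := rfl

omit [Fintype J] [DecidableEq J] in
theorem line_zero (L : LineCode a J) (j : J) : L.line 0 j = 0 := by
  have h := L.add 0 0 j
  rw [add_zero] at h
  have h1 : L.line 0 j + 0 = L.line 0 j + L.line 0 j := by rw [add_zero]; exact h
  exact (add_left_cancel h1).symm

/-- The code words. -/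
def codeSub (L : LineCode a J) : Submodule (ZMod 2) (J → Al a) where
  carrier := {ω | ∃ p, ∀ j, ω j = L.line p j}
  zero_mem' := ⟨0, fun j => (line_zero L j).symm⟩
  add_mem' := by
    rintro ω ω' ⟨p, hp⟩ ⟨p', hp'⟩
    exact ⟨p + p', fun j => by rw [Pi.add_apply, hp, hp', L.add]⟩
  smul_mem' := by
    rintro s ω ⟨p, hp⟩
    have hs : s = 0 ∨ s = 1 := by revert s; decide
    rcases hs with rfl | rfl
    · rw [zero_smul]
      exact ⟨0, fun j => (line_zero L j).symm⟩
    · rw [one_smul]
      exact ⟨p, hp⟩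

/-- Words outside the code violate a parity check. -/
theorem exists_check (L : LineCode a J) (ω : J → Al a) (hω : ¬ ∃ p, ∀ j, ω j = L.line p j) :
    ∃ w : J → Al a, (∀ p, ∑ j, w j ⬝ᵥ L.line p j = 0) ∧ ∑ j, w j ⬝ᵥ ω j ≠ 0 := by
  classical
  have hω' : ω ∉ codeSub L := hω
  obtain ⟨f, hf1, hf2⟩ := Submodule.exists_dual_map_eq_bot_of_notMem hω' inferInstance
  have key : ∀ v : J → Al a, f v = ∑ j, (fun l => f (Pi.single j (Pi.single l 1))) ⬝ᵥ v j := by
    intro v
    conv_lhs => rw [← Finset.univ_sum_single v]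
    rw [map_sum]
    refine Finset.sum_congr rfl fun j _ => ?_
    have h1 : v j = ∑ l, v j l • (Pi.single l (1 : ZMod 2) : Al a) := by
      funext l
      rw [Finset.sum_apply, Finset.sum_eq_single l]
      · simp
      · intro l' _ hl
        rw [Pi.smul_apply, Pi.single_eq_of_ne (Ne.symm hl), smul_zero]
      · intro h
        exact absurd (mem_univ _) h
    have h2 : (Pi.single j (v j) : J → Al a)
        = ∑ l, v j l • (Pi.single j (Pi.single l (1 : ZMod 2) : Al a) : J → Al a) := by
      conv_lhs => rw [h1]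
      funext j' l'
      rw [Finset.sum_apply, Finset.sum_apply]
      by_cases hj : j' = j
      · subst hj
        simp only [Pi.single_eq_same, Pi.smul_apply, Finset.sum_apply]
      · simp only [Pi.single_eq_of_ne hj, Pi.zero_apply, Pi.smul_apply, smul_zero,
          Finset.sum_const_zero]
    rw [h2, map_sum]
    unfold dotProduct
    refine Finset.sum_congr rfl fun l _ => ?_
    rw [map_smul, smul_eq_mul, mul_comm]
  refine ⟨fun j l => f (Pi.single j (Pi.single l 1)), fun p => ?_, ?_⟩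
  · rw [← key (L.line p)]
    have h3 : f (L.line p) ∈ (codeSub L).map f := ⟨L.line p, ⟨p, fun _ => rfl⟩, rfl⟩
    rw [hf2] at h3
    exact (Submodule.mem_bot _).1 h3
  · rw [← key ω]
    exact hf1

/-- A density kills the local functions supported on violating words. -/
theorem kill {t : ℕ} (L : LineCode a J) (ix : Bt a m J ≃ Fin nn) (c : Fin N → J → Fin m)
    (b : Fin N → J → Al a) (zz : Fin N → Fin nn → ZMod 2)
    (hzz : ∀ e j l, zz e (ix ((j, c e j), l)) = b e j l)
    (D : (Fin nn → Bool) → ℝ)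
    (hD3 : ∀ g : (Fin nn → Bool) → ℝ, Dg t g → 0 ≤ ∑ y, D y * g y ^ 2)
    (hD2 : ∀ e, ∀ w ∈ chk L ix c e, ∑ y, D y * (if w ⬝ᵥ eZ nn y = w ⬝ᵥ zz e then 0 else 1) = 0)
    (ht : Fintype.card J * a ≤ t) (e : Fin N) (h : (J → Al a) → ℝ)
    (hh : ∀ ω, (∃ p, ∀ j, ω j + b e j = L.line p j) → h ω = 0) :
    ∑ y, D y * h (word ix c e y) = 0 := by
  classical
  -- the bits of the constraint
  set B : Finset (Fin nn) := univ.image fun p : J × Fin a => ix ((p.1, c e p.1), p.2) with hB
  have hBc : B.card ≤ t := by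
    refine le_trans Finset.card_image_le ?_
    rw [Finset.card_univ, Fintype.card_prod, Fintype.card_fin]
    exact ht
  have hword : ∀ x y : Fin nn → Bool, (∀ i ∈ B, x i = y i) → word ix c e x = word ix c e y := by
    intro x y hxy
    funext j l
    unfold word
    rw [hxy _ (mem_image.2 ⟨(j, l), mem_univ _, rfl⟩)]
  have hone : ∀ ω0 : J → Al a, (¬ ∃ p, ∀ j, ω0 j + b e j = L.line p j) →
      ∑ y, D y * (if word ix c e y = ω0 then (1 : ℝ) else 0) = 0 := by
    intro ω0 h0
    obtain ⟨w, hw1, hw2⟩ := exists_check L (fun j => ω0 j + b e j) h0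
    -- the check as a vector
    set W : Fin nn → ZMod 2 := fun v =>
      if (ix.symm v).1.2 = c e (ix.symm v).1.1 then w (ix.symm v).1.1 (ix.symm v).2 else 0 with hW
    have hWloc : ∀ j, loc ix c e W j = w j := by
      intro j
      funext l
      show W (ix ((j, c e j), l)) = w j l
      simp only [hW, Equiv.symm_apply_apply, if_true]
    have hWsupp : ∀ v, W v ≠ 0 → ∃ j l, v = ix ((j, c e j), l) := by
      intro v hv
      simp only [hW] at hv
      by_cases hc : (ix.symm v).1.2 = c e (ix.symm v).1.1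
      · refine ⟨(ix.symm v).1.1, (ix.symm v).2, ?_⟩
        rw [← hc]
        exact (ix.apply_symm_apply v).symm
      · rw [if_neg hc] at hv
        exact absurd rfl hv
    have hWdot : ∀ x : Fin nn → ZMod 2, W ⬝ᵥ x = ∑ j, w j ⬝ᵥ loc ix c e x j := by
      intro x
      unfold dotProduct
      rw [← Equiv.sum_comp ix, Fintype.sum_prod_type, Fintype.sum_prod_type]
      refine Finset.sum_congr rfl fun j _ => ?_
      rw [Finset.sum_eq_single (c e j)]
      · refine Finset.sum_congr rfl fun l _ => ?_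
        have := congrFun (hWloc j) l
        show W (ix ((j, c e j), l)) * _ = _
        rw [show W (ix ((j, c e j), l)) = w j l from this]
        rfl
      · intro i _ hi
        refine Finset.sum_eq_zero fun l _ => ?_
        have h1 : W (ix ((j, i), l)) = 0 := by
          simp only [hW, Equiv.symm_apply_apply]
          rw [if_neg hi]
        rw [h1, zero_mul]
      · intro hn
        exact absurd (mem_univ _) hn
    have hWmem : W ∈ chk L ix c e := by
      refine ⟨hWsupp, fun p => ?_⟩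
      simp only [hWloc]
      exact hw1 p
    have h1 := hD2 e W hWmem
    have hz : ∀ j, loc ix c e (zz e) j = b e j := by
      intro j
      funext l
      exact hzz e j l
    have hviol : ∀ y, word ix c e y = ω0 → ¬ W ⬝ᵥ eZ nn y = W ⬝ᵥ zz e := by
      intro y hy hcon
      rw [hWdot, hWdot] at hcon
      apply hw2
      have h2 : ∑ j, w j ⬝ᵥ (ω0 j + b e j) = ∑ j, w j ⬝ᵥ loc ix c e (eZ nn y) j
          + ∑ j, w j ⬝ᵥ loc ix c e (zz e) j := by
        rw [← Finset.sum_add_distrib]
        refine Finset.sum_congr rfl fun j _ => ?_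
        rw [← dotProduct_add, hz, ← word_eq, hy]
      rw [h2, hcon]
      exact Pool.Agent.W888.GX.z2_add_self _
    have hcong : ∀ x y : Fin nn → Bool, (∀ i ∈ B, x i = y i) →
        (W ⬝ᵥ eZ nn x = W ⬝ᵥ zz e ↔ W ⬝ᵥ eZ nn y = W ⬝ᵥ zz e) := by
      intro x y hxy
      have h2 : W ⬝ᵥ eZ nn x = W ⬝ᵥ eZ nn y := by
        rw [hWdot, hWdot]
        refine Finset.sum_congr rfl fun j _ => ?_
        rw [← word_eq, ← word_eq, hword x y hxy]
      rw [h2]
    have hp1 := junta_pos D hD3 B hBc (fun y => if word ix c e y = ω0 then (1 : ℝ) else 0)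
      (fun x y hxy => by
        show (if word ix c e x = ω0 then (1 : ℝ) else 0) = if word ix c e y = ω0 then 1 else 0
        rw [hword x y hxy])
      (fun y => by
        show (0 : ℝ) ≤ if word ix c e y = ω0 then (1 : ℝ) else 0
        split_ifs <;> norm_num)
    have hp2 := junta_pos D hD3 B hBc (fun y => (if W ⬝ᵥ eZ nn y = W ⬝ᵥ zz e then (0 : ℝ) else 1)
        - if word ix c e y = ω0 then (1 : ℝ) else 0)
      (fun x y hxy => by
        show (if W ⬝ᵥ eZ nn x = W ⬝ᵥ zz e then (0 : ℝ) else 1)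
          - (if word ix c e x = ω0 then (1 : ℝ) else 0)
          = (if W ⬝ᵥ eZ nn y = W ⬝ᵥ zz e then (0 : ℝ) else 1)
          - (if word ix c e y = ω0 then (1 : ℝ) else 0)
        rw [hword x y hxy]
        by_cases h2 : W ⬝ᵥ eZ nn x = W ⬝ᵥ zz e
        · rw [if_pos h2, if_pos ((hcong x y hxy).1 h2)]
        · rw [if_neg h2, if_neg fun h3 => h2 ((hcong x y hxy).2 h3)])
      (fun y => by
        show (0 : ℝ) ≤ (if W ⬝ᵥ eZ nn y = W ⬝ᵥ zz e then (0 : ℝ) else 1)
          - if word ix c e y = ω0 then (1 : ℝ) else 0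
        by_cases h2 : word ix c e y = ω0
        · rw [if_pos h2, if_neg (hviol y h2)]
          norm_num
        · rw [if_neg h2]
          split_ifs <;> norm_num)
    simp only [mul_sub, Finset.sum_sub_distrib, h1] at hp2
    linarith
  have h2 : ∀ y, h (word ix c e y) = ∑ ω0, h ω0 * (if word ix c e y = ω0 then (1 : ℝ) else 0) := by
    intro y
    rw [Finset.sum_eq_single (word ix c e y)]
    · rw [if_pos rfl, mul_one]
    · intro ω0 _ hne
      rw [if_neg (Ne.symm hne), mul_zero]
    · intro hn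
      exact absurd (mem_univ _) hn
  simp only [h2, Finset.mul_sum]
  rw [Finset.sum_comm]
  refine Finset.sum_eq_zero fun ω0 _ => ?_
  by_cases h0 : ∃ p, ∀ j, ω0 j + b e j = L.line p j
  · rw [hh ω0 h0]
    simp
  · have h3 := hone ω0 h0
    calc ∑ y, D y * (h ω0 * (if word ix c e y = ω0 then (1 : ℝ) else 0))
        = h ω0 * ∑ y, D y * (if word ix c e y = ω0 then (1 : ℝ) else 0) := by
          rw [Finset.mul_sum]
          refine Finset.sum_congr rfl fun y _ => ?_
          ring
      _ = 0 := by rw [h3, mul_zero]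

/-- The systems. -/
theorem exists_sysU (a : ℕ) (ha : 2 ≤ a) : ∃ K n0 : ℕ, 1 ≤ K ∧ 1 ≤ n0 ∧
    ∃ L : LineCode a (Fin (2 ^ a)), ∀ m, n0 ≤ m →
      ∀ (nn : ℕ) (ix : Bt a m (Fin (2 ^ a)) ≃ Fin nn) (N : ℕ), N = a * (2 ^ a * m) →
      ∃ (c : Fin N → Fin (2 ^ a) → Fin m) (b : Fin N → Fin (2 ^ a) → Al a)
        (D : (Fin nn → Bool) → ℝ),
        (∀ (y : Fin (2 ^ a) × Fin m → Al a) (P : Fin N → Al a × Al a),
          ∑ e, agr L c b y P e ≤ (2 * a + 3) * N) ∧
        (∀ y, |D y| ≤ 2 ^ nn) ∧ ∑ y, D y = 2 ^ nn ∧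
        (∀ t, K * t ≤ m → ∀ g : (Fin nn → Bool) → ℝ, Dg t g → 0 ≤ ∑ y, D y * g y ^ 2) ∧
        ∀ e, ∀ h : (Fin (2 ^ a) → Al a) → ℝ,
          (∀ ω, (∃ p, ∀ j, ω j + b e j = L.line p j) → h ω = 0) →
          ∑ y, D y * h (word ix c e y) = 0 := by
  classical
  obtain ⟨L⟩ := exists_code a (by omega)
  set q := 2 ^ a with hq
  have hq4 : 4 ≤ q := by
    calc 4 = 2 ^ 2 := by norm_num
      _ ≤ 2 ^ a := Nat.pow_le_pow_right (by norm_num) ha
  -- the constant of the expansion
  set B : ℕ := (12 * 2 ^ q * (a * q)) ^ 4 with hB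
  have hB1 : 1 ≤ B := Nat.one_le_iff_ne_zero.2 (by positivity)
  -- r ≤ m / B
  refine ⟨8 * (2 * B), 8 * (2 * B) * (q * a) + 16 * B, by omega, by omega, L, ?_⟩
  intro m hm nn ix N hN
  have hm1 : 1 ≤ m := by omega
  set r := m / (2 * B) with hr
  have hr1 : 1 ≤ r := by
    rw [hr, Nat.le_div_iff_mul_le (by omega)]
    omega
  have h2r : 2 * r * B ≤ m := by
    have := Nat.div_mul_le_self m (2 * B)
    rw [← hr] at this
    calc 2 * r * B = r * (2 * B) := by ring
      _ ≤ m := this
  have h2rm : 2 * r ≤ m := le_trans (Nat.le_mul_of_pos_right _ (by omega)) h2r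
  obtain ⟨c, hc⟩ := exists_exp (J := Fin q) N m (2 * r) (by omega) h2rm (by
    rw [Fintype.card_fin, hN]
    calc (12 * 2 ^ q * (a * (q * m))) ^ 4 * (2 * r)
        = m ^ 4 * (2 * r * B) := by
          rw [hB]
          ring
      _ ≤ m ^ 4 * m := Nat.mul_le_mul_left _ h2r
      _ = m ^ 5 := by ring)
  obtain ⟨b, hb⟩ := exists_shift L (by rw [Fintype.card_fin]) (by omega) hm1 hN c
  have hE : ExpW (chk L ix c) (2 * r) :=
    expW_of L ix c (by rw [Fintype.card_fin]; omega) (2 * r) hc
  set zz : Fin N → Fin nn → ZMod 2 := fun e v => b e (ix.symm v).1.1 (ix.symm v).2 with hzz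
  obtain ⟨D, hD1, hD2, hD3, hD4⟩ := exists_density (chk L ix c) zz r hr1 hE
  refine ⟨c, b, D, hb, hD1, hD2, ?_, ?_⟩
  · intro t ht g hg
    refine hD3 t ?_ g hg
    rw [hr, Nat.le_div_iff_mul_le (by omega)]
    calc 8 * t * (2 * B) = 8 * (2 * B) * t := by ring
      _ ≤ m := ht
  · intro e h hh
    refine kill (t := q * a) L ix c b zz ?_ D ?_ hD4 ?_ e h hh
    · intro e j l
      simp only [hzz, Equiv.symm_apply_apply]
    · refine hD3 (q * a) ?_
      rw [hr, Nat.le_div_iff_mul_le (by omega)]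
      calc 8 * (q * a) * (2 * B) = 8 * (2 * B) * (q * a) := by ring
        _ ≤ m := by omega
    · rw [Fintype.card_fin]

end Pool.Agent.TH661.UG
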