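import Mathlib
import Pool.Agent.TH661.UG.SysU
import Pool.Agent.TH661.LRS.Region
import Pool.Agent.TH661.LRS.GI4

/-!
Semidefinite programs for projection games and unique games.
-/

namespace Pool.Agent.TH661.UG

open Finset Matrix Pool.Agent.TH661.LRS Pool.Agent.TH661.LRS.Sys

/-- A game with `n` vertices on each side, the label sets `Fin A` on the left and `Fin B` on the
right: a set of constraints, each consisting of a left vertex `u`, a right vertex `v` and a map `π`
from the labels of `u` to the labels of `v`. -/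
abbrev Game (n A B : ℕ) : Type := Finset (Fin n × Fin n × (Fin A → Fin B))

/-- The number of the constraints `(u, v, π)` with `π (α u) = β v`. -/
def sat {n A B : ℕ} (G : Game n A B) (α : Fin n → Fin A) (β : Fin n → Fin B) : ℕ :=
  (G.filter fun e => e.2.2 (α e.1) = β e.2.1).card

/-- A mixed-binary semidefinite programming formulation of the games on `n + n` vertices with the
label sets `Fin A` and `Fin B` all of whose constraints have the property `T`. It has `k` binary
variables, any number `d` of free real variables, a positive semidefinite matrix variable of order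
`r`, and any number `e` of linear equations `lin (x, f, Z) = rhs`; this feasible region does not depend
on the game. Every labelling `(α, β)` has a feasible point `y α β`. Every game has an affine
objective function, with value the number of satisfied constraints at `y α β` (so its maximum is at
least the value of the game times the number of constraints). If no labelling satisfies more than
the fraction `s` of the constraints then the objective function is at most `c₁` times the number of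
constraints on the whole feasible region. -/
structure GameSDP (n A B : ℕ) (T : (Fin A → Fin B) → Prop) (k r : ℕ) (c₁ s : ℝ) where
  d : ℕ
  e : ℕ
  lin : ((Fin k → ℝ) × (Fin d → ℝ) × Matrix (Fin r) (Fin r) ℝ) →ₗ[ℝ] (Fin e → ℝ)
  rhs : Fin e → ℝ
  y : (Fin n → Fin A) → (Fin n → Fin B) →
    (Fin k → Bool) × (Fin d → ℝ) × Matrix (Fin r) (Fin r) ℝ
  w : Game n A B → ((Fin k → ℝ) × (Fin d → ℝ) × Matrix (Fin r) (Fin r) ℝ) →ₗ[ℝ] ℝ
  w0 : Game n A B → ℝ
  psd : ∀ α β, (y α β).2.2.PosSemidef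
  eqn : ∀ α β, lin (bits (y α β).1, (y α β).2) = rhs
  value : ∀ G : Game n A B, (∀ e ∈ G, T e.2.2) → ∀ α β,
    w G (bits (y α β).1, (y α β).2) + w0 G = sat G α β
  bound : ∀ G : Game n A B, (∀ e ∈ G, T e.2.2) → (∀ α β, (sat G α β : ℝ) ≤ s * G.card) →
    ∀ (x : Fin k → Bool) (f : Fin d → ℝ) (Z : Matrix (Fin r) (Fin r) ℝ),
    Z.PosSemidef → lin (bits x, f, Z) = rhs → w G (bits x, f, Z) + w0 G ≤ c₁ * G.card

/-- The constraint maps of a game made of a code. -/
structure Gad (a : ℕ) (J : Type) (L : LineCode a J) (Kp Rt : Type) [Fintype Kp] [DecidableEq Rt]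
    where
  pm : J → Al a → Kp → Al a × Al a → Rt
  rl : Al a → Rt
  fr : Rt → Al a
  inj : ∀ j s, Function.Injective (pm j s)
  pm_rl : ∀ j s p f, (univ.filter fun κ => pm j s κ p = rl f).card
    = if f + s = L.line p j then 1 else 0
  pm_le : ∀ j s p z, (univ.filter fun κ => pm j s κ p = z).card
    ≤ if fr z + s = L.line p j then 1 else 0

section gadget

variable {a m N nn bb n A B : ℕ} {J : Type} [Fintype J] [DecidableEq J]
  {Kp Rt : Type} [Fintype Kp] [DecidableEq Kp] [DecidableEq Rt]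

/-- left vertices -/
abbrev LV (a bb N : ℕ) (J : Type) : Type := Fin N × (J → Fin a → Fin bb)

/-- right vertices -/
abbrev RV (a bb m : ℕ) (J : Type) : Type := (J × Fin m) × (Fin a → Fin bb)

/-- The left vertex of the constraint `e`. -/
def lv (ix : Bt a m J ≃ Fin nn) (c : Fin N → J → Fin m) (S : Fin nn → Fin bb) (e : Fin N) :
    LV a bb N J := (e, fun j l => S (ix ((j, c e j), l)))

/-- The right vertex of a variable. -/
def rv (ix : Bt a m J ≃ Fin nn) (S : Fin nn → Fin bb) (v : J × Fin m) :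
    RV a bb m J := (v, fun l => S (ix (v, l)))

/-- The constraint with the index `(e, j, κ)`. -/
def edge {L : LineCode a J} (Γ : Gad a J L Kp Rt) (ix : Bt a m J ≃ Fin nn)
    (c : Fin N → J → Fin m) (b : Fin N → J → Al a) (ιL : LV a bb N J ↪ Fin n)
    (ιR : RV a bb m J ↪ Fin n) (eL : Al a × Al a ≃ Fin A) (eR : Rt ≃ Fin B)
    (S : Fin nn → Fin bb) (t : (Fin N × J) × Kp) : Fin n × Fin n × (Fin A → Fin B) :=
  (ιL (lv ix c S t.1.1), ιR (rv ix S (t.1.2, c t.1.1 t.1.2)),
    fun x => eR (Γ.pm t.1.2 (b t.1.1 t.1.2) t.2 (eL.symm x)))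

theorem edge_inj {L : LineCode a J} (Γ : Gad a J L Kp Rt) (ix : Bt a m J ≃ Fin nn)
    (c : Fin N → J → Fin m) (b : Fin N → J → Al a) (ιL : LV a bb N J ↪ Fin n)
    (ιR : RV a bb m J ↪ Fin n) (eL : Al a × Al a ≃ Fin A) (eR : Rt ≃ Fin B)
    (S : Fin nn → Fin bb) : Function.Injective (edge Γ ix c b ιL ιR eL eR S) := by
  rintro ⟨⟨e, j⟩, κ⟩ ⟨⟨e', j'⟩, κ'⟩ h
  have h1 : lv ix c S e = lv ix c S e' := ιL.injective (Prod.mk.inj h).1
  have h2 : rv ix S (j, c e j) = rv ix S (j', c e' j') :=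
    ιR.injective (Prod.mk.inj (Prod.mk.inj h).2).1
  have h3 : e = e' := (Prod.mk.inj h1).1
  subst h3
  have h4 : (j, c e j) = (j', c e j') := (Prod.mk.inj h2).1
  have h5 : j = j' := (Prod.mk.inj h4).1
  subst h5
  have h6 := (Prod.mk.inj (Prod.mk.inj h).2).2
  have h7 : Γ.pm j (b e j) κ = Γ.pm j (b e j) κ' := by
    funext p
    have h8 := congrFun h6 (eL p)
    simp only [Equiv.symm_apply_apply] at h8
    exact eR.injective h8
  rw [Γ.inj j (b e j) h7]

/-- The game of the choice `S` of copies. -/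
def gameS {L : LineCode a J} (Γ : Gad a J L Kp Rt) (ix : Bt a m J ≃ Fin nn)
    (c : Fin N → J → Fin m) (b : Fin N → J → Al a) (ιL : LV a bb N J ↪ Fin n)
    (ιR : RV a bb m J ↪ Fin n) (eL : Al a × Al a ≃ Fin A) (eR : Rt ≃ Fin B)
    (S : Fin nn → Fin bb) : Game n A B :=
  univ.map ⟨edge Γ ix c b ιL ιR eL eR S, edge_inj Γ ix c b ιL ιR eL eR S⟩

theorem card_gameS {L : LineCode a J} (Γ : Gad a J L Kp Rt) (ix : Bt a m J ≃ Fin nn)
    (c : Fin N → J → Fin m) (b : Fin N → J → Al a) (ιL : LV a bb N J ↪ Fin n)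
    (ιR : RV a bb m J ↪ Fin n) (eL : Al a × Al a ≃ Fin A) (eR : Rt ≃ Fin B)
    (S : Fin nn → Fin bb) :
    (gameS Γ ix c b ιL ιR eL eR S).card = (N * Fintype.card J) * Fintype.card Kp := by
  rw [gameS, card_map, card_univ, Fintype.card_prod, Fintype.card_prod, Fintype.card_fin]

theorem sat_gameS {L : LineCode a J} (Γ : Gad a J L Kp Rt) (ix : Bt a m J ≃ Fin nn)
    (c : Fin N → J → Fin m) (b : Fin N → J → Al a) (ιL : LV a bb N J ↪ Fin n)
    (ιR : RV a bb m J ↪ Fin n) (eL : Al a × Al a ≃ Fin A) (eR : Rt ≃ Fin B)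
    (S : Fin nn → Fin bb) (α : Fin n → Fin A) (β : Fin n → Fin B) :
    sat (gameS Γ ix c b ιL ιR eL eR S) α β = ∑ e, ∑ j, (univ.filter fun κ =>
      Γ.pm j (b e j) κ (eL.symm (α (ιL (lv ix c S e))))
        = eR.symm (β (ιR (rv ix S (j, c e j))))).card := by
  unfold sat gameS
  rw [filter_map, card_map, card_filter, Fintype.sum_prod_type, Fintype.sum_prod_type]
  refine Finset.sum_congr rfl fun e _ => Finset.sum_congr rfl fun j _ => ?_
  rw [card_filter]
  refine Finset.sum_congr rfl fun κ _ => ?_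
  have h1 : (edge Γ ix c b ιL ιR eL eR S ((e, j), κ)).2.2
      (α (edge Γ ix c b ιL ιR eL eR S ((e, j), κ)).1)
      = β (edge Γ ix c b ιL ιR eL eR S ((e, j), κ)).2.1 ↔
      Γ.pm j (b e j) κ (eL.symm (α (ιL (lv ix c S e))))
        = eR.symm (β (ιR (rv ix S (j, c e j)))) := by
    show eR (Γ.pm j (b e j) κ (eL.symm (α (ιL (lv ix c S e))))) = β (ιR (rv ix S (j, c e j))) ↔ _
    rw [← Equiv.eq_symm_apply]
  show (if (edge Γ ix c b ιL ιR eL eR S ((e, j), κ)).2.2
      (α (edge Γ ix c b ιL ιR eL eR S ((e, j), κ)).1)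
      = β (edge Γ ix c b ιL ιR eL eR S ((e, j), κ)).2.1 then 1 else 0) = _
  by_cases h : Γ.pm j (b e j) κ (eL.symm (α (ιL (lv ix c S e))))
        = eR.symm (β (ιR (rv ix S (j, c e j))))
  · rw [if_pos h, if_pos (h1.2 h)]
  · rw [if_neg h, if_neg fun h2 => h (h1.1 h2)]

/-- Soundness. -/
theorem sat_le {L : LineCode a J} (Γ : Gad a J L Kp Rt) (ix : Bt a m J ≃ Fin nn)
    (c : Fin N → J → Fin m) (b : Fin N → J → Al a) (ιL : LV a bb N J ↪ Fin n)
    (ιR : RV a bb m J ↪ Fin n) (eL : Al a × Al a ≃ Fin A) (eR : Rt ≃ Fin B)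
    (S : Fin nn → Fin bb) (M : ℕ)
    (hb : ∀ (y : J × Fin m → Al a) (P : Fin N → Al a × Al a), ∑ e, agr L c b y P e ≤ M)
    (α : Fin n → Fin A) (β : Fin n → Fin B) :
    sat (gameS Γ ix c b ιL ιR eL eR S) α β ≤ M := by
  rw [sat_gameS]
  refine le_trans ?_ (hb (fun v => Γ.fr (eR.symm (β (ιR (rv ix S v)))))
    (fun e => eL.symm (α (ιL (lv ix c S e)))))
  refine Finset.sum_le_sum fun e _ => ?_
  unfold agr
  rw [card_filter]
  exact Finset.sum_le_sum fun j _ => Γ.pm_le _ _ _ _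

open Classical in
/-- The label of the constraint vertex: the code word, if there is one. -/
noncomputable def dec (L : LineCode a J) (b : Fin N → J → Al a) (e : Fin N) (ω : J → Al a) :
    Al a × Al a :=
  if h : ∃ p, ∀ j, ω j + b e j = L.line p j then h.choose else 0

theorem dec_spec (L : LineCode a J) (b : Fin N → J → Al a) (e : Fin N) (ω : J → Al a)
    (h : ∃ p, ∀ j, ω j + b e j = L.line p j) (j : J) :
    ω j + b e j = L.line (dec L b e ω) j := by
  unfold dec
  rw [dif_pos h]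
  exact h.choose_spec j

/-- The labels of the left vertices for the assignment `x`. -/
noncomputable def labL (L : LineCode a J) (ix : Bt a m J ≃ Fin nn)
    (c : Fin N → J → Fin m) (b : Fin N → J → Al a) (ιL : LV a bb N J ↪ Fin n)
    (eL : Al a × Al a ≃ Fin A) (x : Fin nn × Fin bb → Bool) : Fin n → Fin A :=
  Function.extend ιL (fun v => eL (dec L b v.1 fun j l => toZ (x (ix ((j, c v.1 j), l), v.2 j l))))
    (fun _ => eL 0)

/-- The labels of the right vertices for the assignment `x`. -/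
noncomputable def labR {L : LineCode a J} (Γ : Gad a J L Kp Rt) (ix : Bt a m J ≃ Fin nn)
    (ιR : RV a bb m J ↪ Fin n) (eR : Rt ≃ Fin B) (x : Fin nn × Fin bb → Bool) : Fin n → Fin B :=
  Function.extend ιR (fun v => eR (Γ.rl fun l => toZ (x (ix (v.1, l), v.2 l))))
    (fun _ => eR (Γ.rl 0))

/-- The number of satisfied slots of a word. -/
noncomputable def vs (L : LineCode a J) (b : Fin N → J → Al a) (e : Fin N) (ω : J → Al a) : ℕ :=
  (univ.filter fun j => ω j + b e j = L.line (dec L b e ω) j).card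

theorem sat_lab {L : LineCode a J} (Γ : Gad a J L Kp Rt) (ix : Bt a m J ≃ Fin nn)
    (c : Fin N → J → Fin m) (b : Fin N → J → Al a) (ιL : LV a bb N J ↪ Fin n)
    (ιR : RV a bb m J ↪ Fin n) (eL : Al a × Al a ≃ Fin A) (eR : Rt ≃ Fin B)
    (S : Fin nn → Fin bb) (x : Fin nn × Fin bb → Bool) :
    sat (gameS Γ ix c b ιL ιR eL eR S) (labL L ix c b ιL eL x) (labR Γ ix ιR eR x)
      = ∑ e, vs L b e (word ix c e (res S x)) := by
  rw [sat_gameS]
  refine Finset.sum_congr rfl fun e _ => ?_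
  have h1 : labL L ix c b ιL eL x (ιL (lv ix c S e))
      = eL (dec L b e (word ix c e (res S x))) := by
    unfold labL
    rw [ιL.injective.extend_apply]
    rfl
  have h2 : ∀ j, labR Γ ix ιR eR x (ιR (rv ix S (j, c e j)))
      = eR (Γ.rl (word ix c e (res S x) j)) := by
    intro j
    unfold labR
    rw [ιR.injective.extend_apply]
    rfl
  unfold vs
  rw [card_filter]
  refine Finset.sum_congr rfl fun j _ => ?_
  rw [h1, h2, Equiv.symm_apply_apply, Equiv.symm_apply_apply]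
  exact Γ.pm_rl _ _ _ _

/-- The lower bound with all parameters. -/
theorem game_bound {L : LineCode a J} (Γ : Gad a J L Kp Rt) {T : (Fin A → Fin B) → Prop}
    {k r : ℕ} {c₁ s δ : ℝ} (F : GameSDP n A B T k r c₁ s)
    (hT : ∀ (eL : Al a × Al a ≃ Fin A) (eR : Rt ≃ Fin B) j σ κ,
      T fun x => eR (Γ.pm j σ κ (eL.symm x)))
    (hA : Fintype.card (Al a × Al a) = A) (eR : Rt ≃ Fin B)
    (ix : Bt a m J ≃ Fin nn) (c : Fin N → J → Fin m) (b : Fin N → J → Al a)
    (hN : 1 ≤ N) (hJ1 : 1 ≤ Fintype.card J) (hK1 : 1 ≤ Fintype.card Kp) (M : ℕ)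
    (hb : ∀ (y : J × Fin m → Al a) (P : Fin N → Al a × Al a), ∑ e, agr L c b y P e ≤ M)
    (hs : (M : ℝ) ≤ s * ((N * Fintype.card J * Fintype.card Kp : ℕ) : ℝ))
    (hc₁ : c₁ = (1 - δ) / Fintype.card Kp) (hδ : 0 < δ) (hδ1 : δ ≤ 1)
    (t l w E jj : ℕ) (ht : 1 ≤ t) (hnn : 1 ≤ nn) (D : (Fin nn → Bool) → ℝ)
    (hD1 : ∑ y, D y = 2 ^ nn)
    (hD3 : ∀ g : (Fin nn → Bool) → ℝ, Dg t g → 0 ≤ ∑ y, D y * g y ^ 2)
    (hD4 : ∀ y, |D y| ≤ 2 ^ nn)
    (hD2 : ∀ e, ∀ h : (J → Al a) → ℝ, (∀ ω, (∃ p, ∀ j, ω j + b e j = L.line p j) → h ω = 0) →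
      ∑ y, D y * h (word ix c e y) = 0)
    (ιL : LV a bb N J ↪ Fin n) (ιR : RV a bb m J ↪ Fin n)
    (hGE : 1 ≤ 2 ^ E * δ)
    (hw : 2 * nn + 2 * E + 19 ≤ w * t) (hj : nn + 4 + E ≤ 2 * jj)
    (hbb : 2 ^ (l + w) * ((2 ^ jj * (l * t + nn + 7 + E)) * nn) ≤ bb) :
    2 ^ (l * t) < 2 ^ k * (r + 1) := by
  classical
  set eL : Al a × Al a ≃ Fin A := Fintype.equivFinOfCardEq hA with heL
  set q : ℝ := (Fintype.card J : ℝ) with hq
  set K : ℝ := (Fintype.card Kp : ℝ) with hK
  have hq0 : (1 : ℝ) ≤ q := by rw [hq]; exact_mod_cast hJ1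
  have hK0 : (1 : ℝ) ≤ K := by rw [hK]; exact_mod_cast hK1
  have hN0 : (1 : ℝ) ≤ N := by exact_mod_cast hN
  have hNq : (1 : ℝ) ≤ N * q := by nlinarith
  have hcard : ∀ S, (((gameS Γ ix c b ιL ιR eL eR S).card : ℕ) : ℝ) = N * q * K := by
    intro S
    rw [card_gameS]
    push_cast
    rfl
  have hTG : ∀ S, ∀ e ∈ gameS Γ ix c b ιL ιR eL eR S, T e.2.2 := by
    intro S e he
    rw [gameS, mem_map] at he
    obtain ⟨t0, _, rfl⟩ := he
    exact hT eL eR _ _ _
  have hbd : ∀ S, c₁ * (((gameS Γ ix c b ιL ιR eL eR S).card : ℕ) : ℝ) = (1 - δ) * (N * q) := by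
    intro S
    rw [hcard, hc₁]
    field_simp
  refine region_bound_exp (m := nn) (b := bb) t l w E jj ht hnn D hD3 hD4
    (fun _ y => (1 - δ) * (N * q) - ∑ e, (vs L b e (word ix c e y) : ℝ)) (N * q) (δ * (N * q))
    (by positivity) ?_ ?_ ?_ ?_ hw hj hbb
    F.lin F.rhs (fun x => F.y (labL L ix c b ιL eL x) (labR Γ ix ιR eR x))
    (fun x => F.psd _ _) (fun x => F.eqn _ _)
    (fun S => F.w (gameS Γ ix c b ιL ιR eL eR S)) (fun S => F.w0 (gameS Γ ix c b ιL ιR eL eR S))
    (fun S => c₁ * (gameS Γ ix c b ιL ιR eL eR S).card) ?_ ?_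
  · have : (N * q : ℝ) * 1 ≤ (N * q) * (2 ^ E * δ) :=
      mul_le_mul_of_nonneg_left hGE (by positivity)
    linarith
  · have : δ * (N * q) ≤ 1 * (N * q) := mul_le_mul_of_nonneg_right hδ1 (by positivity)
    linarith
  · intro S y
    have h1 : (0 : ℝ) ≤ ∑ e, (vs L b e (word ix c e y) : ℝ) := by positivity
    have h2 : (1 - δ) * (N * q) ≤ 1 * (N * q) :=
      mul_le_mul_of_nonneg_right (by linarith) (by positivity)
    linarith
  · intro S
    have h1 : ∀ e : Fin N, ∑ y, D y * (vs L b e (word ix c e y) : ℝ) = q * 2 ^ nn := by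
      intro e
      have h2 := hD2 e (fun ω => q - vs L b e ω) (fun ω hω => by
        have h3 : vs L b e ω = Fintype.card J := by
          unfold vs
          rw [filter_true_of_mem fun j _ => dec_spec L b e ω hω j, card_univ]
        rw [h3, hq, sub_self])
      simp only [mul_sub, Finset.sum_sub_distrib, ← Finset.sum_mul, hD1] at h2
      linarith
    have h4 : ∑ y, D y * ((1 - δ) * (N * q) - ∑ e, (vs L b e (word ix c e y) : ℝ))
        = 2 ^ nn * ((1 - δ) * (N * q)) - ∑ e : Fin N, q * 2 ^ nn := by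
      simp only [mul_sub, Finset.sum_sub_distrib, ← Finset.sum_mul, hD1, Finset.mul_sum]
      rw [Finset.sum_comm]
      simp only [h1]
      rw [Finset.sum_mul]
    rw [h4, Finset.sum_const, card_univ, Fintype.card_fin, nsmul_eq_mul]
    apply le_of_eq
    ring
  · intro S x
    have h1 := F.value (gameS Γ ix c b ιL ιR eL eR S) (hTG S) (labL L ix c b ιL eL x)
      (labR Γ ix ιR eR x)
    rw [h1, sat_lab, hbd]
    push_cast
    rfl
  · intro S x f Z hZ hA'
    refine F.bound _ (hTG S) (fun α β => ?_) x f Z hZ hA'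
    have h1 := sat_le Γ ix c b ιL ιR eL eR S M hb α β
    have h2 : ((sat (gameS Γ ix c b ιL ιR eL eR S) α β : ℕ) : ℝ) ≤ M := by exact_mod_cast h1
    refine h2.trans (hs.trans (le_of_eq ?_))
    rw [hcard]
    push_cast
    rfl

end gadget

end Pool.Agent.TH661.UG
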