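import Mathlib
import Pool.Agent.TH661.UG.Game

/-!
The size of semidefinite programs for projection games and unique games.
-/

namespace Pool.Agent.TH661.UG

open Finset Matrix Pool.Agent.TH661.LRS Pool.Agent.TH661.LRS.Sys

/-- The parameters. -/
theorem paramsU (Q K n0 : ℕ) (hQ1 : 1 ≤ Q) (hK1 : 1 ≤ K) : ∃ C : ℕ, 1 ≤ C ∧ ∀ n : ℕ, C ≤ n →
    ∃ u m t : ℕ, Q * m ≤ u ∧ n0 ≤ m ∧ 1 ≤ m ∧ K * t ≤ m ∧ 240 ≤ t ∧ t ≤ m ∧ m ≤ u ∧
      2 ^ (34 * Q * u) ≤ n ∧ (n : ℝ) ^ (1 / C : ℝ) ≤ 2 ^ (51 * u + 58) ∧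
      (n : ℝ) ^ (Real.logb 2 n / C) ≤ 2 ^ (u * t) := by
  obtain ⟨Λ0, hΛ0⟩ : ∃ Λ0 : ℕ, Λ0 = 34 * Q * (Q * (240 * K + n0)) := ⟨_, rfl⟩
  obtain ⟨C, hC⟩ : ∃ C : ℕ, C = 2 ^ Λ0 + 9248 * Q ^ 3 * K + 34 * Q := ⟨_, rfl⟩
  have h2Λ : 0 < 2 ^ Λ0 := by positivity
  have hC1 : 1 ≤ C := by omega
  refine ⟨C, hC1, ?_⟩
  intro n hCn
  have hn0 : n ≠ 0 := by omega
  have hnR : (0 : ℝ) < n := by exact_mod_cast Nat.pos_of_ne_zero hn0
  have hn1R : (1 : ℝ) ≤ n := by
    have : 1 ≤ n := by omega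
    exact_mod_cast this
  obtain ⟨Λ, hΛ⟩ : ∃ Λ : ℕ, Λ = Nat.log 2 n := ⟨_, rfl⟩
  have hnlow : 2 ^ Λ ≤ n := by rw [hΛ]; exact Nat.pow_log_le_self 2 hn0
  have hnup : n < 2 ^ (Λ + 1) := by rw [hΛ]; exact Nat.lt_pow_succ_log_self (by norm_num) n
  have hΛ0Λ : Λ0 ≤ Λ := by
    rw [hΛ]
    refine Nat.le_log_of_pow_le (by norm_num) ?_
    omega
  obtain ⟨u, hu⟩ : ∃ u : ℕ, u = Λ / (34 * Q) := ⟨_, rfl⟩
  have hu1 : 34 * Q * u ≤ Λ := by rw [hu]; exact Nat.mul_div_le _ _
  have hu2 : Λ < 34 * Q * (u + 1) := by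
    have := Nat.lt_mul_div_succ Λ (show 0 < 34 * Q by omega)
    rw [hu]
    exact this
  have hu3 : Q * (240 * K + n0) ≤ u := by
    rw [hu, Nat.le_div_iff_mul_le (by omega)]
    calc Q * (240 * K + n0) * (34 * Q) = Λ0 := by rw [hΛ0]; ring
      _ ≤ Λ := hΛ0Λ
  obtain ⟨m, hm⟩ : ∃ m : ℕ, m = u / Q := ⟨_, rfl⟩
  have hm1 : Q * m ≤ u := by rw [hm]; exact Nat.mul_div_le _ _
  have hm2 : u < Q * (m + 1) := by
    have := Nat.lt_mul_div_succ u (show 0 < Q by omega)
    rw [hm]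
    exact this
  have hm3 : 240 * K + n0 ≤ m := by
    rw [hm, Nat.le_div_iff_mul_le (by omega)]
    calc (240 * K + n0) * Q = Q * (240 * K + n0) := mul_comm _ _
      _ ≤ u := hu3
  have hm0 : 1 ≤ m := by omega
  obtain ⟨t, ht⟩ : ∃ t : ℕ, t = m / K := ⟨_, rfl⟩
  have ht1 : K * t ≤ m := by rw [ht]; exact Nat.mul_div_le _ _
  have ht2 : m < K * (t + 1) := by
    have := Nat.lt_mul_div_succ m (show 0 < K by omega)
    rw [ht]
    exact this
  have ht240 : 240 ≤ t := by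
    rw [ht, Nat.le_div_iff_mul_le (by omega)]
    omega
  have htm : t ≤ m := by rw [ht]; exact Nat.div_le_self _ _
  have hmu : m ≤ u := le_trans (Nat.le_mul_of_pos_left _ (by omega)) hm1
  have hCR : (0 : ℝ) < C := by exact_mod_cast hC1
  refine ⟨u, m, t, hm1, by omega, hm0, ht1, ht240, htm, hmu,
    (Nat.pow_le_pow_right (by norm_num) hu1).trans hnlow, ?_, ?_⟩
  · have h1 : (n : ℝ) ≤ 2 ^ (34 * Q * (u + 1)) := by
      have h2 : n ≤ 2 ^ (34 * Q * (u + 1)) :=
        hnup.le.trans (Nat.pow_le_pow_right (by norm_num) hu2)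
      exact_mod_cast h2
    calc (n : ℝ) ^ (1 / C : ℝ) ≤ ((2 : ℝ) ^ (34 * Q * (u + 1))) ^ (1 / C : ℝ) :=
          Real.rpow_le_rpow hnR.le h1 (by positivity)
      _ = (2 : ℝ) ^ (((34 * Q * (u + 1) : ℕ) : ℝ) * (1 / C)) := by
          rw [← Real.rpow_natCast, ← Real.rpow_mul (by norm_num)]
      _ ≤ (2 : ℝ) ^ ((51 * u + 58 : ℕ) : ℝ) := by
          refine Real.rpow_le_rpow_of_exponent_le (by norm_num) ?_
          rw [mul_one_div, div_le_iff₀ hCR]
          have h3 : 34 * Q * (u + 1) ≤ (51 * u + 58) * C := by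
            calc 34 * Q * (u + 1) ≤ C * (51 * u + 58) :=
                  Nat.mul_le_mul (by omega) (by omega)
              _ = (51 * u + 58) * C := mul_comm _ _
          exact_mod_cast h3
      _ = 2 ^ (51 * u + 58) := Real.rpow_natCast _ _
  · obtain ⟨x, hx⟩ : ∃ x : ℝ, x = Real.logb 2 n := ⟨_, rfl⟩
    have hx0 : 0 ≤ x := by rw [hx]; exact Real.logb_nonneg (by norm_num) hn1R
    have hxn : (2 : ℝ) ^ x = n := by
      rw [hx]
      exact Real.rpow_logb (by norm_num) (by norm_num) hnR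
    have hxΛ : x ≤ ((Λ + 1 : ℕ) : ℝ) := by
      rw [hx, Real.logb_le_iff_le_rpow (by norm_num) hnR, Real.rpow_natCast]
      exact_mod_cast hnup.le
    have hx1 : x ≤ ((68 * Q * u : ℕ) : ℝ) := by
      refine hxΛ.trans ?_
      have h1 : Λ + 1 ≤ 68 * Q * u := by
        have h3 : u + 1 ≤ 2 * u := by omega
        have h2 : 34 * Q * (u + 1) ≤ 34 * Q * (2 * u) := Nat.mul_le_mul_left _ h3
        have h4 : 34 * Q * (2 * u) = 68 * Q * u := by ring
        omega
      exact_mod_cast h1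
    have hx2 : x ≤ ((136 * Q ^ 2 * K * t : ℕ) : ℝ) := by
      refine hx1.trans ?_
      have h1 : u ≤ 2 * (Q * (K * t)) := by
        have h2 : Q * (m + 1) ≤ Q * (K * (t + 1)) := Nat.mul_le_mul_left _ ht2
        have h3 : Q * (K * (t + 1)) ≤ 2 * (Q * (K * t)) := by
          have h4 : K * (t + 1) ≤ K * (2 * t) := Nat.mul_le_mul_left _ (by omega)
          calc Q * (K * (t + 1)) ≤ Q * (K * (2 * t)) := Nat.mul_le_mul_left _ h4
            _ = 2 * (Q * (K * t)) := by ring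
        omega
      have h5 : 68 * Q * u ≤ 136 * Q ^ 2 * K * t := by
        calc 68 * Q * u ≤ 68 * Q * (2 * (Q * (K * t))) := Nat.mul_le_mul_left _ h1
          _ = 136 * Q ^ 2 * K * t := by ring
      exact_mod_cast h5
    have hxx : x * (x / C) ≤ ((u * t : ℕ) : ℝ) := by
      rw [mul_div_assoc', div_le_iff₀ hCR]
      calc x * x ≤ ((68 * Q * u : ℕ) : ℝ) * ((136 * Q ^ 2 * K * t : ℕ) : ℝ) :=
            mul_le_mul hx1 hx2 hx0 (by positivity)
        _ = ((u * t * (9248 * Q ^ 3 * K) : ℕ) : ℝ) := by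
            push_cast
            ring
        _ ≤ ((u * t * C : ℕ) : ℝ) := by
            have h1 : u * t * (9248 * Q ^ 3 * K) ≤ u * t * C := Nat.mul_le_mul_left _ (by omega)
            exact_mod_cast h1
        _ = ((u * t : ℕ) : ℝ) * C := by push_cast; ring
    rw [← hx]
    calc (n : ℝ) ^ (x / C) = ((2 : ℝ) ^ x) ^ (x / C) := by rw [hxn]
      _ = (2 : ℝ) ^ (x * (x / C)) := by rw [← Real.rpow_mul (by norm_num)]
      _ ≤ (2 : ℝ) ^ ((u * t : ℕ) : ℝ) := Real.rpow_le_rpow_of_exponent_le (by norm_num) hxx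
      _ = 2 ^ (u * t) := Real.rpow_natCast _ _

/-- The lower bound for games made of codes. -/
theorem game_lower (a : ℕ) (ha : 2 ≤ a) {Kp Rt : Type} [Fintype Kp] [DecidableEq Kp] [Fintype Rt]
    [DecidableEq Rt] (hK : 1 ≤ Fintype.card Kp)
    (Γ : ∀ L : LineCode a (Fin (2 ^ a)), Gad a (Fin (2 ^ a)) L Kp Rt) {A B : ℕ}
    (hA : Fintype.card (Al a × Al a) = A) (hB : Fintype.card Rt = B)
    (T : (Fin A → Fin B) → Prop)
    (hT : ∀ (L : LineCode a (Fin (2 ^ a))) (eL : Al a × Al a ≃ Fin A) (eR : Rt ≃ Fin B) j σ κ,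
      T fun x => eR ((Γ L).pm j σ κ (eL.symm x))) :
    ∃ C : ℕ, 1 ≤ C ∧ ∀ (n k r : ℕ) (δ : ℝ), C ≤ n → (n : ℝ) ^ (-(1 / C) : ℝ) ≤ δ → δ ≤ 1 →
      Nonempty (GameSDP n A B T k r ((1 - δ) / Fintype.card Kp)
        ((2 * a + 3) / (2 ^ a * Fintype.card Kp))) →
      (n : ℝ) ^ (Real.logb 2 n / C) ≤ 2 ^ k * (r + 1) := by
  classical
  obtain ⟨K, n0, hK1, hn01, L, hsys⟩ := exists_sysU a ha
  obtain ⟨Q, hQ⟩ : ∃ Q : ℕ, Q = 2 ^ a * a := ⟨_, rfl⟩
  have hQ1 : 1 ≤ Q := by
    rw [hQ]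
    exact Nat.one_le_iff_ne_zero.2 (by positivity)
  obtain ⟨C, hC1, hpar⟩ := paramsU Q K n0 hQ1 hK1
  refine ⟨C, hC1, ?_⟩
  rintro n k r δ hCn hδ hδ1 ⟨F⟩
  obtain ⟨u, m, t, hm1, hn0m, hm0, ht1, ht240, htm, hmu, hnlow, hnC, hfin⟩ := hpar n hCn
  have hn0 : n ≠ 0 := by omega
  have hnR : (0 : ℝ) < n := by exact_mod_cast Nat.pos_of_ne_zero hn0
  obtain ⟨nn, hnn⟩ : ∃ nn : ℕ, nn = 2 ^ a * m * a := ⟨_, rfl⟩
  have hnnQ : nn = Q * m := by rw [hnn, hQ]; ring
  have hnnu : nn ≤ u := by rw [hnnQ]; exact hm1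
  obtain ⟨N, hN⟩ : ∃ N : ℕ, N = a * (2 ^ a * m) := ⟨_, rfl⟩
  have hNnn : N = nn := by rw [hN, hnn]; ring
  have hnn1 : 1 ≤ nn := by
    rw [hnnQ]
    exact Nat.one_le_iff_ne_zero.2 (by positivity)
  have hixcard : Fintype.card (Bt a m (Fin (2 ^ a))) = nn := by
    rw [Fintype.card_prod, Fintype.card_prod, Fintype.card_fin, Fintype.card_fin,
      Fintype.card_fin, hnn]
  obtain ⟨c, b, D, hb, hD4, hD1, hD3, hD2⟩ := hsys m hn0m nn
    (Fintype.equivFinOfCardEq hixcard) N hN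
  obtain ⟨bb, hbb⟩ : ∃ bb : ℕ, bb = 2 ^ (33 * u) := ⟨_, rfl⟩
  have huQ : u ≤ Q * u := Nat.le_mul_of_pos_left _ (by omega)
  have h34 : 34 * Q * u = 34 * (Q * u) := by ring
  -- the vertices
  have hcardL : Fintype.card (LV a bb N (Fin (2 ^ a))) ≤ Fintype.card (Fin n) := by
    rw [Fintype.card_fin, Fintype.card_prod, Fintype.card_fun, Fintype.card_fun, Fintype.card_fin,
      Fintype.card_fin, Fintype.card_fin, Fintype.card_fin]
    calc N * (bb ^ a) ^ 2 ^ a ≤ 2 ^ u * (bb ^ a) ^ 2 ^ a := by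
          refine Nat.mul_le_mul_right _ ?_
          rw [hNnn]
          exact hnnu.trans (Nat.lt_two_pow_self).le
      _ = 2 ^ (u + 33 * (Q * u)) := by
          rw [hbb, ← pow_mul, ← pow_mul, ← pow_add, hQ]
          congr 1
          ring
      _ ≤ 2 ^ (34 * Q * u) := Nat.pow_le_pow_right (by norm_num) (by omega)
      _ ≤ n := hnlow
  have hcardR : Fintype.card (RV a bb m (Fin (2 ^ a))) ≤ Fintype.card (Fin n) := by
    rw [Fintype.card_fin, Fintype.card_prod, Fintype.card_prod, Fintype.card_fun,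
      Fintype.card_fin, Fintype.card_fin, Fintype.card_fin, Fintype.card_fin]
    calc 2 ^ a * m * bb ^ a ≤ 2 ^ u * bb ^ a := by
          refine Nat.mul_le_mul_right _ ?_
          have h1 : 2 ^ a * m ≤ nn := by
            rw [hnn]
            exact Nat.le_mul_of_pos_right _ (by omega)
          exact (h1.trans hnnu).trans (Nat.lt_two_pow_self).le
      _ = 2 ^ (u + 33 * (a * u)) := by
          rw [hbb, ← pow_mul, ← pow_add]
          congr 1
          ring
      _ ≤ 2 ^ (34 * Q * u) := by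
          refine Nat.pow_le_pow_right (by norm_num) ?_
          have h3 : a * u ≤ Q * u := by
            refine Nat.mul_le_mul_right _ ?_
            rw [hQ]
            exact Nat.le_mul_of_pos_left _ (by positivity)
          omega
      _ ≤ n := hnlow
  obtain ⟨ιL⟩ := Function.Embedding.nonempty_of_card_le hcardL
  obtain ⟨ιR⟩ := Function.Embedding.nonempty_of_card_le hcardR
  -- the gap
  have hδ0 : 0 < δ := lt_of_lt_of_le (by positivity) hδ
  have hGE : (1 : ℝ) ≤ 2 ^ (51 * u + 58) * δ := by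
    calc (1 : ℝ) = (n : ℝ) ^ (1 / C : ℝ) * (n : ℝ) ^ (-(1 / C) : ℝ) := by
          rw [← Real.rpow_add hnR, add_neg_cancel, Real.rpow_zero]
      _ ≤ 2 ^ (51 * u + 58) * δ := mul_le_mul hnC hδ (by positivity) (by positivity)
  have hKpR : (0 : ℝ) < Fintype.card Kp := by exact_mod_cast hK
  have hmain := game_bound (Γ L) F (hT L) hA (Fintype.equivFinOfCardEq hB)
    (Fintype.equivFinOfCardEq hixcard) c b (by omega)
    (by rw [Fintype.card_fin]; exact Nat.one_le_two_pow) hK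
    ((2 * a + 3) * N) hb (by
      rw [Fintype.card_fin]
      push_cast
      have h1 : ((2 : ℝ) ^ a) ≠ 0 := by positivity
      field_simp
      exact le_refl _) rfl hδ0 hδ1 t u u (51 * u + 58) (26 * u + 31) (by omega)
    hnn1 D hD1 (hD3 t ht1) hD4 hD2 ιL ιR hGE (by nlinarith) (by omega)
    (by
      rw [hbb]
      exact pow_num u nn t _ (by omega) hnnu (htm.trans hmu) rfl)
  have hmainR : (2 : ℝ) ^ (u * t) < 2 ^ k * (r + 1) := by exact_mod_cast hmain
  exact hfin.trans hmainR.le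

section instances

variable {a : ℕ} {J : Type}

theorem add_eq_iff (x s y : Al a) : x + s = y ↔ y + s = x := by
  constructor
  · rintro rfl
    rw [add_assoc, Pool.Agent.W888.GX.add_self_v, add_zero]
  · rintro rfl
    rw [add_assoc, Pool.Agent.W888.GX.add_self_v, add_zero]

/-- The constraint maps of the unique games: `nx j` is a second coordinate. -/
def gadU (L : LineCode a J) (nx : J → J) : Gad a J L (Al a) (Al a × Al a) where
  pm j s κ p := (L.line p (nx j) + κ, L.line p j + s)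
  rl f := (0, f)
  fr z := z.2
  inj j s κ κ' h := by
    have h1 := (Prod.mk.inj (congrFun h 0)).1
    exact add_left_cancel h1
  pm_rl j s p f := by
    by_cases h : f + s = L.line p j
    · rw [if_pos h, card_eq_one]
      refine ⟨L.line p (nx j), ?_⟩
      ext κ
      rw [mem_filter, mem_singleton]
      constructor
      · rintro ⟨_, h1⟩
        have h2 := (Prod.mk.inj h1).1
        rw [add_comm, Pool.Agent.W888.GX.add_eq_zero_v] at h2
        exact h2
      · rintro rfl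
        refine ⟨mem_univ _, Prod.ext ?_ ?_⟩
        · exact Pool.Agent.W888.GX.add_self_v _
        · exact (add_eq_iff _ _ _).1 h
    · rw [if_neg h, card_eq_zero, filter_eq_empty_iff]
      intro κ _ h1
      exact h ((add_eq_iff _ _ _).1 (Prod.mk.inj h1).2)
  pm_le j s p z := by
    by_cases h : z.2 + s = L.line p j
    · rw [if_pos h, card_le_one]
      intro κ hκ κ' hκ'
      have h1 := (mem_filter.1 hκ).2.trans (mem_filter.1 hκ').2.symm
      exact add_left_cancel (Prod.mk.inj h1).1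
    · rw [if_neg h, Nat.le_zero, card_eq_zero, filter_eq_empty_iff]
      intro κ _ h1
      exact h ((add_eq_iff _ _ _).1 (congrArg Prod.snd h1))

/-- The constraint maps of the projection games. -/
def gadP (L : LineCode a J) : Gad a J L Unit (Al a) where
  pm j s _ p := L.line p j + s
  rl f := f
  fr f := f
  inj j s κ κ' _ := rfl
  pm_rl j s p f := by
    by_cases h : f + s = L.line p j
    · rw [if_pos h, card_eq_one]
      refine ⟨(), ?_⟩
      ext κ
      rw [mem_filter, mem_singleton]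
      exact ⟨fun _ => rfl, fun _ => ⟨mem_univ _, (add_eq_iff _ _ _).1 h⟩⟩
    · rw [if_neg h, card_eq_zero, filter_eq_empty_iff]
      intro κ _ h1
      exact h ((add_eq_iff _ _ _).1 h1)
  pm_le j s p z := by
    by_cases h : z + s = L.line p j
    · rw [if_pos h, card_le_one]
      intro κ _ κ' _
      rfl
    · rw [if_neg h, Nat.le_zero, card_eq_zero, filter_eq_empty_iff]
      intro κ _ h1
      exact h ((add_eq_iff _ _ _).1 h1)

theorem card_pairs : Fintype.card (Al a × Al a) = 4 ^ a := by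
  rw [Fintype.card_prod, card_Al, ← mul_pow]
  norm_num

/-- **Unique games.** -/
theorem unique_lower (a : ℕ) (ha : 2 ≤ a) : ∃ C : ℕ, 1 ≤ C ∧ ∀ (n k r : ℕ) (δ : ℝ), C ≤ n →
    (n : ℝ) ^ (-(1 / C) : ℝ) ≤ δ → δ ≤ 1 →
    Nonempty (GameSDP n (4 ^ a) (4 ^ a) Function.Injective k r ((1 - δ) / 2 ^ a)
      ((2 * a + 3) / 4 ^ a)) →
    (n : ℝ) ^ (Real.logb 2 n / C) ≤ 2 ^ k * (r + 1) := by
  classical
  have hnt : Nontrivial (Fin (2 ^ a)) := by
    rw [Fin.nontrivial_iff_two_le]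
    calc 2 = 2 ^ 1 := by norm_num
      _ ≤ 2 ^ a := Nat.pow_le_pow_right (by norm_num) (by omega)
  have hex : ∀ j : Fin (2 ^ a), ∃ j' : Fin (2 ^ a), j' ≠ j := fun j => exists_ne j
  choose nx hnx using hex
  obtain ⟨C, hC, h⟩ := game_lower a ha (Kp := Al a) (Rt := Al a × Al a)
    (by rw [card_Al]; exact Nat.one_le_two_pow) (fun L => gadU L nx) card_pairs card_pairs
    Function.Injective (by
      intro L eL eR j σ κ x x' hxx
      have h1 := eR.injective hxx
      have h2 : L.line (eL.symm x) (nx j) = L.line (eL.symm x') (nx j) :=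
        add_right_cancel (Prod.mk.inj h1).1
      have h3 : L.line (eL.symm x) j = L.line (eL.symm x') j :=
        add_right_cancel (Prod.mk.inj h1).2
      exact eL.symm.injective ((L.bij (nx j) j (hnx j)).1 (Prod.ext h2 h3)))
  refine ⟨C, hC, fun n k r δ hn hδ hδ1 hF => h n k r δ hn hδ hδ1 ?_⟩
  rw [card_Al]
  have h1 : (2 : ℝ) ^ a * ((2 ^ a : ℕ) : ℝ) = 4 ^ a := by
    push_cast
    rw [← mul_pow]
    norm_num
  rw [h1]
  push_cast
  exact hF

/-- **Projection games.** -/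
theorem proj_lower (a : ℕ) (ha : 2 ≤ a) : ∃ C : ℕ, 1 ≤ C ∧ ∀ (n k r : ℕ) (δ : ℝ), C ≤ n →
    (n : ℝ) ^ (-(1 / C) : ℝ) ≤ δ → δ ≤ 1 →
    Nonempty (GameSDP n (4 ^ a) (2 ^ a)
      (fun π => ∀ y, (univ.filter fun x => π x = y).card = 2 ^ a) k r (1 - δ)
      ((2 * a + 3) / 2 ^ a)) →
    (n : ℝ) ^ (Real.logb 2 n / C) ≤ 2 ^ k * (r + 1) := by
  classical
  have hnt : Nontrivial (Fin (2 ^ a)) := by
    rw [Fin.nontrivial_iff_two_le]
    calc 2 = 2 ^ 1 := by norm_num
      _ ≤ 2 ^ a := Nat.pow_le_pow_right (by norm_num) (by omega)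
  have hex : ∀ j : Fin (2 ^ a), ∃ j' : Fin (2 ^ a), j' ≠ j := fun j => exists_ne j
  choose nx hnx using hex
  obtain ⟨C, hC, h⟩ := game_lower a ha (Kp := Unit) (Rt := Al a)
    (by simp) (fun L => gadP L) card_pairs card_Al
    (fun π => ∀ y, (univ.filter fun x => π x = y).card = 2 ^ a) (by
      intro L eL eR j σ κ y
      have h1 : (univ.filter fun x => eR ((gadP L).pm j σ κ (eL.symm x)) = y).card
          = (univ.filter fun z : Al a × Al a => z.1 = eR.symm y + σ).card := by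
        refine Finset.card_bij
          (fun x _ => (L.line (eL.symm x) j, L.line (eL.symm x) (nx j))) ?_ ?_ ?_
        · intro x hx
          rw [mem_filter] at hx ⊢
          refine ⟨mem_univ _, ?_⟩
          have h2 : L.line (eL.symm x) j + σ = eR.symm y := by
            rw [Equiv.eq_symm_apply]
            exact hx.2
          exact ((add_eq_iff _ _ _).1 h2).symm
        · intro x _ x' _ hxx
          exact eL.symm.injective ((L.bij j (nx j) (hnx j).symm).1 hxx)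
        · rintro ⟨z1, z2⟩ hz
          rw [mem_filter] at hz
          obtain ⟨p, hp⟩ := (L.bij j (nx j) (hnx j).symm).2 (z1, z2)
          refine ⟨eL p, ?_, ?_⟩
          · rw [mem_filter]
            refine ⟨mem_univ _, ?_⟩
            rw [Equiv.symm_apply_apply]
            show eR (L.line p j + σ) = y
            have h2 : L.line p j = z1 := (Prod.mk.inj hp).1
            rw [h2, ← Equiv.eq_symm_apply, add_eq_iff]
            exact hz.2.symm
          · simp only [Equiv.symm_apply_apply]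
            exact hp
      rw [h1]
      have h3 : (univ.filter fun z : Al a × Al a => z.1 = eR.symm y + σ)
          = {eR.symm y + σ} ×ˢ univ := by
        ext z
        rw [mem_filter, mem_product, mem_singleton]
        exact ⟨fun h => ⟨h.2, mem_univ _⟩, fun h => ⟨mem_univ _, h.1⟩⟩
      rw [h3, card_product, card_singleton, one_mul, card_univ, card_Al])
  refine ⟨C, hC, fun n k r δ hn hδ hδ1 hF => h n k r δ hn hδ hδ1 ?_⟩
  rw [Fintype.card_unit, Nat.cast_one, div_one, mul_one]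
  exact hF

end instances

end Pool.Agent.TH661.UG
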