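import Mathlib
import Pool.Agent.TH661.UG.Low
import Pool.Agent.TH661.LRS.Up

/-!
The trivial semidefinite program for games.
-/

namespace Pool.Agent.TH661.UG

open Finset Matrix Pool.Agent.TH661.LRS

/-- The trivial formulation, with one variable for every labelling. -/
theorem game_upper {n A B : ℕ} (T : (Fin A → Fin B) → Prop) {c₁ s : ℝ} (hs : s ≤ c₁) :
    Nonempty (GameSDP n A B T 0 (A ^ n * B ^ n) c₁ s) := by
  classical
  set K : Type := (Fin n → Fin A) × (Fin n → Fin B) with hK
  have hcard : Fintype.card K = A ^ n * B ^ n := by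
    rw [Fintype.card_prod, Fintype.card_fun, Fintype.card_fun, Fintype.card_fin, Fintype.card_fin,
      Fintype.card_fin]
  rw [← hcard]
  set e := Fintype.equivFin K with he
  refine ⟨{ d := 0, e := 1
            lin := LinearMap.pi fun _ => (Matrix.traceLinearMap (Fin (Fintype.card K)) ℝ ℝ).comp
              ((LinearMap.snd ℝ (Fin 0 → ℝ)
                (Matrix (Fin (Fintype.card K)) (Fin (Fintype.card K)) ℝ)).comp
              (LinearMap.snd ℝ (Fin 0 → ℝ) ((Fin 0 → ℝ) ×
                Matrix (Fin (Fintype.card K)) (Fin (Fintype.card K)) ℝ)))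
            rhs := fun _ => 1
            y := fun α β => (fun j => j.elim0, fun j => j.elim0,
              Matrix.diagonal fun i => if e.symm i = (α, β) then (1 : ℝ) else 0)
            w := fun G => ∑ i : Fin (Fintype.card K), (sat G (e.symm i).1 (e.symm i).2 : ℝ) •
              ((entry i i).comp ((LinearMap.snd ℝ (Fin 0 → ℝ)
                (Matrix (Fin (Fintype.card K)) (Fin (Fintype.card K)) ℝ)).comp
              (LinearMap.snd ℝ (Fin 0 → ℝ) ((Fin 0 → ℝ) ×
                Matrix (Fin (Fintype.card K)) (Fin (Fintype.card K)) ℝ))))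
            w0 := fun _ => 0
            psd := ?_
            eqn := ?_
            value := ?_
            bound := ?_ }⟩
  · intro α β
    refine Matrix.PosSemidef.diagonal fun i => ?_
    show (0 : ℝ) ≤ if e.symm i = (α, β) then (1 : ℝ) else 0
    split_ifs <;> norm_num
  · intro α β
    funext i
    simp only [LinearMap.pi_apply, LinearMap.comp_apply, LinearMap.snd_apply,
      Matrix.traceLinearMap_apply, Matrix.trace_diagonal]
    rw [Finset.sum_eq_single (e (α, β))]
    · simp
    · intro j _ hj
      rw [if_neg]
      intro h
      apply hj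
      rw [← e.symm_apply_eq]
      exact h
    · intro h
      exact absurd (Finset.mem_univ _) h
  · intro G _ α β
    simp only [LinearMap.sum_apply, LinearMap.smul_apply, LinearMap.comp_apply,
      LinearMap.snd_apply, entry_apply, Matrix.diagonal_apply_eq, smul_eq_mul, add_zero]
    rw [Finset.sum_eq_single (e (α, β))]
    · simp
    · intro j _ hj
      rw [if_neg, mul_zero]
      intro h
      apply hj
      rw [← e.symm_apply_eq]
      exact h
    · intro h
      exact absurd (Finset.mem_univ _) h
  · intro G _ hG x f Z hZ hA
    have hs1 : ∑ i, Z i i = 1 := congrFun hA 0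
    simp only [LinearMap.sum_apply, LinearMap.smul_apply, LinearMap.comp_apply,
      LinearMap.snd_apply, entry_apply, smul_eq_mul, add_zero]
    calc ∑ i, (sat G (e.symm i).1 (e.symm i).2 : ℝ) * Z i i ≤ ∑ i, (c₁ * G.card) * Z i i := by
          refine Finset.sum_le_sum fun i _ => mul_le_mul_of_nonneg_right ?_ hZ.diag_nonneg
          exact (hG _ _).trans (mul_le_mul_of_nonneg_right hs (by positivity))
      _ = c₁ * G.card := by rw [← Finset.mul_sum, hs1, mul_one]

end Pool.Agent.TH661.UG
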